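import Mathlib
import Pool.Agent.Helper25.CliqueGame.Final

/-!
# The biased clique game: a potential for Maker (definitions)

State of the game: `M` is the set of edges claimed by Maker, `F` (a finite family of vertex sets) is
the family of the `q`-cliques which Maker still wants (none of them contains an edge of Breaker).
-/

set_option autoImplicit false

namespace Pool.Agent.Helper78.CG

open Finset Pool.Agent.Helper25.CliqueGame

variable {N : ℕ}

/-- The edges of `K_N` inside the vertex set `W`. -/
def EI (W : Finset (Fin N)) : Finset (Sym2 (Fin N)) :=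
  (edges N).filter (fun e => ∀ x ∈ e, x ∈ W)

/-- The weight of the clique `A` seen from `W`: `β` to the power minus the number of edges of `A`
which are not inside `W` and not yet claimed by Maker. -/
noncomputable def wt (β : ℝ) (M : Finset (Sym2 (Fin N))) (W A : Finset (Fin N)) : ℝ :=
  β⁻¹ ^ ((EI A \ EI W) \ M).card

/-- The sum of the weights `wt β M W A` over the cliques `A` of the family `F` which contain the
vertex set `W` and all edges of `D`. -/
noncomputable def tt (β : ℝ) (M : Finset (Sym2 (Fin N))) (F : Finset (Finset (Fin N)))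
    (W : Finset (Fin N)) (D : Finset (Sym2 (Fin N))) : ℝ :=
  ∑ A ∈ F.filter (fun A => W ⊆ A ∧ D ⊆ EI A), wt β M W A

/-- The parameters of the potential. -/
structure Par where
  /-- size of the wanted clique -/
  q : ℕ
  /-- `1 + b / m` -/
  β : ℝ
  /-- error parameter -/
  ν : ℝ
  /-- exponents -/
  th : ℕ → ℝ
  /-- coefficients -/
  lam : ℕ → ℝ
  /-- caps -/
  cap : ℕ → ℝ

/-- The conditions on the parameters which are used in one step of the game. -/
structure Par.Good (P : Par) : Prop where
  hβ : 1 ≤ P.β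
  hν0 : 0 ≤ P.ν
  hν1 : P.ν ≤ 1
  th_pos : ∀ k, 0 < P.th k
  th_le : ∀ k, 2 ≤ k → k < P.q → P.th k ≤ 1
  lam_pos : ∀ k, 0 < P.lam k
  cap_anti : Antitone P.cap
  cap_nonneg : ∀ k, 0 ≤ P.cap k
  cap_q : 1 ≤ P.cap P.q
  cap_exp : ∀ k, 2 ≤ k → k < P.q → P.lam k * P.th k * Real.exp (P.th k * P.cap k) = 4
  nu_th : ∀ k, 2 ≤ k → k < P.q → P.th k * (P.β * P.cap (k + 1)) ≤ P.ν

/-- The vertex sets of size `2, ..., q - 1`. -/
def WW (N : ℕ) (P : Par) : Finset (Finset (Fin N)) :=
  univ.filter (fun W => 2 ≤ W.card ∧ W.card < P.q)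

/-- The coefficient of the vertex set `W`. -/
noncomputable def cf (P : Par) (M : Finset (Sym2 (Fin N))) (F : Finset (Finset (Fin N)))
    (W : Finset (Fin N)) : ℝ :=
  P.lam W.card * P.th W.card * Real.exp (P.th W.card * tt P.β M F W ∅)

/-- The danger of the clique `A`. -/
noncomputable def Om (P : Par) (M : Finset (Sym2 (Fin N))) (F : Finset (Finset (Fin N)))
    (A : Finset (Fin N)) : ℝ :=
  ∑ W ∈ (WW N P).filter (fun W => W ⊆ A), cf P M F W * P.β ^ (EI W \ M).card

/-- The first order term of the penalty at the edge `e`. -/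
noncomputable def RR (P : Par) (M : Finset (Sym2 (Fin N))) (F : Finset (Finset (Fin N)))
    (e : Sym2 (Fin N)) : ℝ :=
  ∑ W ∈ (WW N P).filter (fun W => e ∉ EI W), cf P M F W * tt P.β M F W {e}

/-- The value of the edge `e`. -/
noncomputable def VV (P : Par) (M : Finset (Sym2 (Fin N))) (F : Finset (Finset (Fin N)))
    (e : Sym2 (Fin N)) : ℝ :=
  tt P.β M F ∅ {e} - RR P M F e

/-- The penalty. -/
noncomputable def SS (P : Par) (M : Finset (Sym2 (Fin N))) (F : Finset (Finset (Fin N))) : ℝ :=
  ∑ W ∈ WW N P, P.lam W.card * Real.exp (P.th W.card * tt P.β M F W ∅)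

/-- The potential. -/
noncomputable def LL (P : Par) (M : Finset (Sym2 (Fin N))) (F : Finset (Finset (Fin N))) : ℝ :=
  tt P.β M F ∅ ∅ - SS P M F

/-- The family after Breaker claimed the edges of `Y`. -/
def brk (F : Finset (Finset (Fin N))) (Y : Finset (Sym2 (Fin N))) : Finset (Finset (Fin N)) :=
  F.filter (fun A => Disjoint Y (EI A))

/-- All members of the family have `q` elements and danger at most `c`. -/
def St (P : Par) (c : ℝ) (M : Finset (Sym2 (Fin N))) (F : Finset (Finset (Fin N))) : Prop :=
  (∀ A ∈ F, A.card = P.q) ∧ ∀ A ∈ F, Om P M F A ≤ c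

/-- The bound for the change of the value of an edge in one step. -/
noncomputable def kap (P : Par) : ℝ := 4 * P.ν * P.cap 2 + 4 * P.β * P.cap 3

/-- The loss in one turn. -/
noncomputable def lossT (P : Par) (m b : ℕ) : ℝ :=
  b * (m + b) * kap P + 8 * b * P.ν * P.cap 2

end Pool.Agent.Helper78.CG
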