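import Pool.Agent.Helper78.CG.Numeric

set_option autoImplicit false

namespace Pool.Agent.Helper78.CG

open Finset Pool.Agent.Helper25.CliqueGame

open Filter Topology

theorem log_log_nonneg {N : ℕ} (hN : 3 ≤ N) : 0 ≤ Real.log (Real.log N) := by
  apply Real.log_nonneg
  have hN3 : (3 : ℝ) ≤ N := by exact_mod_cast hN
  have h1 : Real.exp 1 ≤ N := by
    have := Real.exp_one_lt_d9
    linarith
  calc (1 : ℝ) = Real.log (Real.exp 1) := (Real.log_exp 1).symm
    _ ≤ Real.log N := Real.log_le_log (Real.exp_pos 1) h1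

/-- Upper bound without the second order term.  Proof: `value_upper` and `log log N ≥ 0`. -/
theorem value_upper_simple {m b : ℕ} (hm : 1 ≤ m) (hb : 1 ≤ b) :
    ∃ C : ℝ, ∀ N : ℕ, 3 ≤ N → (value N m b : ℝ) ≤ 2 * m * Real.logb (b + 1) N + C := by
  obtain ⟨C, hC⟩ := value_upper hm hb
  refine ⟨C, fun N hN => (hC N hN).trans ?_⟩
  have hb0 : (0 : ℝ) < b := by exact_mod_cast hb
  have h1 : 0 ≤ Real.logb (b + 1) (Real.log N) :=
    div_nonneg (log_log_nonneg hN) (Real.log_pos (by linarith)).le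
  have h2 : (0 : ℝ) ≤ 2 * m := by positivity
  have h3 := mul_nonneg h2 h1
  nlinarith

theorem tendsto_log_nat : Tendsto (fun N : ℕ => Real.log (N : ℝ)) atTop atTop :=
  Real.tendsto_log_atTop.comp tendsto_natCast_atTop_atTop

/-- `(K log log N + C) / log N → 0`. -/
theorem tendsto_small (K C : ℝ) :
    Tendsto (fun N : ℕ => (K * Real.log (Real.log N) + C) / Real.log N) atTop (𝓝 0) := by
  have h1 : Tendsto (fun x : ℝ => Real.log x / x) atTop (𝓝 0) :=
    Real.isLittleO_log_id_atTop.tendsto_div_nhds_zero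
  have h2 : Tendsto (fun x : ℝ => C / x) atTop (𝓝 0) :=
    tendsto_const_nhds.div_atTop tendsto_id
  have h3 : Tendsto (fun x : ℝ => K * (Real.log x / x) + C / x) atTop (𝓝 (K * 0 + 0)) :=
    (h1.const_mul K).add h2
  rw [mul_zero, add_zero] at h3
  have h4 := h3.comp tendsto_log_nat
  refine h4.congr fun N => ?_
  simp only [Function.comp]
  ring

theorem ev_small {D : ℝ} (hD : 0 < D) (K C : ℝ) :
    ∀ᶠ N : ℕ in atTop, K * Real.log (Real.log N) + C ≤ D * Real.log N := by
  have h1 := (tendsto_small K C).eventually (Iio_mem_nhds hD)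
  have h2 : ∀ᶠ N : ℕ in atTop, 0 < Real.log (N : ℝ) := tendsto_log_nat.eventually_gt_atTop 0
  filter_upwards [h1, h2] with N hN1 hN2
  have := (div_lt_iff₀ hN2).1 hN1
  linarith

/-- `f_N(1,b) ~ 2 log_{b+1} N`.  Proof: `value_lower_random` (`1 + b/1 = b + 1`),
`value_upper_simple`, `log log N / log N → 0`, squeeze. -/
theorem tendsto_one {b : ℕ} (hb : 1 ≤ b) :
    Tendsto (fun N : ℕ => (value N 1 b : ℝ) / Real.logb (b + 1) N) atTop (𝓝 2) := by
  obtain ⟨C1, hC1⟩ := value_lower_random (m := 1) le_rfl hb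
  obtain ⟨C2, hC2⟩ := value_upper_simple (m := 1) le_rfl hb
  have hb0 : (0 : ℝ) < b := by exact_mod_cast hb
  have hlog : 0 < Real.log ((b : ℝ) + 1) := Real.log_pos (by linarith)
  have hbase : (1 + (b : ℝ) / ((1 : ℕ) : ℝ)) = (b : ℝ) + 1 := by
    push_cast; ring
  rw [hbase] at hC1
  have hlow : Tendsto (fun N : ℕ => 2 - (10 * Real.log (Real.log N) + C1 * Real.log ((b : ℝ) + 1)) /
      Real.log N) atTop (𝓝 (2 - 0)) := tendsto_const_nhds.sub (tendsto_small _ _)
  have hup : Tendsto (fun N : ℕ => 2 + (0 * Real.log (Real.log N) + C2 * Real.log ((b : ℝ) + 1)) /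
      Real.log N) atTop (𝓝 (2 + 0)) := tendsto_const_nhds.add (tendsto_small _ _)
  rw [sub_zero] at hlow
  rw [add_zero] at hup
  have hpos : ∀ᶠ N : ℕ in atTop, 0 < Real.log (N : ℝ) := tendsto_log_nat.eventually_gt_atTop 0
  refine tendsto_of_tendsto_of_tendsto_of_le_of_le' hlow hup ?_ ?_
  · filter_upwards [hC1, hpos] with N hN hN0
    have hL : 0 < Real.logb ((b : ℝ) + 1) N := div_pos hN0 hlog
    rw [le_div_iff₀ hL]
    refine le_trans (le_of_eq ?_) hN
    unfold Real.logb
    field_simp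
    ring
  · filter_upwards [eventually_ge_atTop 3, hpos] with N hN hN0
    have hL : 0 < Real.logb ((b : ℝ) + 1) N := div_pos hN0 hlog
    rw [div_le_iff₀ hL]
    refine (hC2 N hN).trans (le_of_eq ?_)
    unfold Real.logb
    push_cast
    field_simp
    ring

/-- comparison of a lower bound and an upper bound -/
theorem gap_aux {f g : ℕ → ℝ} {l1 l2 C1 C2 a : ℝ} (hl1 : 0 < l1) (hl2 : 0 < l2)
    (ha : a * l1 < l2)
    (hf : ∀ᶠ N : ℕ in atTop, 2 * (Real.log N / l1) - 10 * (Real.log (Real.log N) / l1) - C1 ≤ f N)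
    (hg : ∀ N : ℕ, 3 ≤ N → g N ≤ 2 * a * (Real.log N / l2) + C2) :
    ∃ c : ℝ, 0 < c ∧ ∀ᶠ N : ℕ in atTop, g N + c * Real.log N ≤ f N := by
  set D := 2 / l1 - 2 * a / l2 with hD
  have hDpos : 0 < D := by
    have h1 : D = 2 * (l2 - a * l1) / (l1 * l2) := by
      rw [hD]; field_simp
    rw [h1]
    apply div_pos _ (mul_pos hl1 hl2)
    linarith
  refine ⟨D / 2, by linarith, ?_⟩
  filter_upwards [hf, eventually_ge_atTop 3, ev_small (D := D / 2) (by linarith) (10 / l1)
    (C1 + C2)] with N h1 h2 h3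
  have h4 := hg N h2
  have h5 : 2 * (Real.log N / l1) - 10 * (Real.log (Real.log N) / l1) - C1 -
      (2 * a * (Real.log N / l2) + C2) =
      D * Real.log N - (10 / l1 * Real.log (Real.log N) + (C1 + C2)) := by
    rw [hD]; ring
  linarith

/-- Proof: `value_lower_random` and `value_upper_simple`: the difference is at least
`(2 / log (1+b/m) - 2 m / log (b+2)) log N - O (log log N)`, and the bracket is positive because
`m log (1 + b/m) < log (b+2)`. -/
theorem gap_b {m b : ℕ} (hm : 1 ≤ m) (hb : 1 ≤ b) (h : (1 + (b : ℝ) / m) ^ m < b + 2) :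
    ∃ c : ℝ, 0 < c ∧ ∀ᶠ N : ℕ in atTop,
      (value N m (b + 1) : ℝ) + c * Real.log N ≤ value N m b := by
  obtain ⟨C1, hC1⟩ := value_lower_random hm hb
  obtain ⟨C2, hC2⟩ := value_upper_simple (b := b + 1) hm (by omega)
  have hb0 : (0 : ℝ) < b := by exact_mod_cast hb
  have hm0 : (0 : ℝ) < m := by exact_mod_cast hm
  have hβ : 1 < 1 + (b : ℝ) / m := by
    have := div_pos hb0 hm0
    linarith
  refine gap_aux (l1 := Real.log (1 + (b : ℝ) / m)) (l2 := Real.log ((b : ℝ) + 1 + 1))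
    (C1 := C1) (C2 := C2) (a := m) (Real.log_pos hβ) (Real.log_pos (by linarith)) ?_ ?_ ?_
  · rw [← Real.log_pow]
    apply Real.log_lt_log (by positivity)
    linarith
  · exact hC1
  · intro N hN
    have := hC2 N hN
    push_cast at this
    exact this

/-- Proof: `value_lower_random` and `value_upper_simple`: the difference is at least
`(2 / log (1+b/(m+1)) - 2 m / log (b+1)) log N - O (log log N)`, and the bracket is positive because
`m log (1 + b/(m+1)) < log (b+1)`. -/
theorem gap_m {m b : ℕ} (hm : 1 ≤ m) (hb : 1 ≤ b) (h : (1 + (b : ℝ) / (m + 1)) ^ m < b + 1) :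
    ∃ c : ℝ, 0 < c ∧ ∀ᶠ N : ℕ in atTop,
      (value N m b : ℝ) + c * Real.log N ≤ value N (m + 1) b := by
  obtain ⟨C1, hC1⟩ := value_lower_random (m := m + 1) (by omega) hb
  obtain ⟨C2, hC2⟩ := value_upper_simple hm hb
  have hb0 : (0 : ℝ) < b := by exact_mod_cast hb
  have hm0 : (0 : ℝ) < m := by exact_mod_cast hm
  have hβ : 1 < 1 + (b : ℝ) / ((m : ℝ) + 1) := by
    have := div_pos hb0 (by linarith : (0 : ℝ) < (m : ℝ) + 1)
    linarith
  refine gap_aux (l1 := Real.log (1 + (b : ℝ) / ((m : ℝ) + 1))) (l2 := Real.log ((b : ℝ) + 1))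
    (C1 := C1) (C2 := C2) (a := m) (Real.log_pos hβ) (Real.log_pos (by linarith)) ?_ ?_ ?_
  · rw [← Real.log_pow]
    apply Real.log_lt_log (by positivity)
    linarith
  · push_cast at hC1
    exact hC1
  · intro N hN
    exact hC2 N hN

end Pool.Agent.Helper78.CG
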