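import Pool.Agent.Helper78.CG.Defs

set_option autoImplicit false

namespace Pool.Agent.Helper78.CG

open Finset Pool.Agent.Helper25.CliqueGame

variable {N : ℕ}

theorem mem_EI {W : Finset (Fin N)} {e : Sym2 (Fin N)} :
    e ∈ EI W ↔ e ∈ edges N ∧ ∀ x ∈ e, x ∈ W := by
  simp [EI]

theorem EI_mono {W W' : Finset (Fin N)} (h : W ⊆ W') : EI W ⊆ EI W' := by
  intro e he
  rw [mem_EI] at he ⊢
  exact ⟨he.1, fun x hx => h (he.2 x hx)⟩

theorem EI_empty : EI (∅ : Finset (Fin N)) = ∅ := by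
  rw [Finset.eq_empty_iff_forall_notMem]
  intro e he
  rw [mem_EI] at he
  induction e using Sym2.ind with
  | h u v => exact absurd (he.2 u (Sym2.mem_mk_left u v)) (Finset.notMem_empty u)

theorem EI_subset_edges (W : Finset (Fin N)) : EI W ⊆ edges N := Finset.filter_subset _ _

/-- The vertex set of an edge. -/
theorem exists_verts {e : Sym2 (Fin N)} (he : e ∈ edges N) :
    ∃ V : Finset (Fin N), V.card = 2 ∧ ∀ A : Finset (Fin N), e ∈ EI A ↔ V ⊆ A := by
  induction e using Sym2.ind with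
  | h u v =>
    have huv : u ≠ v := by
      have h := (Finset.mem_filter.1 he).2
      simpa using h
    refine ⟨{u, v}, Finset.card_pair huv, fun A => ?_⟩
    rw [mem_EI]
    constructor
    · intro h x hx
      rcases Finset.mem_insert.1 hx with rfl | hx
      · exact h.2 _ (Sym2.mem_mk_left _ _)
      · rw [Finset.mem_singleton] at hx
        subst hx
        exact h.2 _ (Sym2.mem_mk_right _ _)
    · intro h
      refine ⟨he, fun x hx => h ?_⟩
      rcases Sym2.mem_iff.1 hx with rfl | rfl <;> simp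

theorem wt_pos {β : ℝ} (hβ : 0 < β) (M : Finset (Sym2 (Fin N))) (W A : Finset (Fin N)) :
    0 < wt β M W A := pow_pos (inv_pos.2 hβ) _

theorem wt_le_one {β : ℝ} (hβ : 1 ≤ β) (M : Finset (Sym2 (Fin N))) (W A : Finset (Fin N)) :
    wt β M W A ≤ 1 := by
  have h0 : 0 ≤ β⁻¹ := inv_nonneg.2 (by linarith)
  have h1 : β⁻¹ ≤ 1 := inv_le_one_of_one_le₀ hβ
  exact pow_le_one₀ h0 h1

/-- `wt` of `A` seen from a subset `W` of `A`. -/
theorem wt_eq {β : ℝ} (hβ : 0 < β) (M : Finset (Sym2 (Fin N))) {W A : Finset (Fin N)} (h : W ⊆ A) :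
    wt β M W A = wt β M ∅ A * β ^ (EI W \ M).card := by
  unfold wt
  rw [EI_empty, Finset.sdiff_empty]
  have hsub : EI W \ M ⊆ EI A \ M := Finset.sdiff_subset_sdiff (EI_mono h) (Finset.Subset.refl _)
  have heq : (EI A \ EI W) \ M = (EI A \ M) \ (EI W \ M) := by
    ext e
    simp only [mem_sdiff]
    tauto
  rw [heq, Finset.card_sdiff_of_subset hsub]
  have hle := Finset.card_le_card hsub
  have hpow : β⁻¹ ^ (EI A \ M).card =
      β⁻¹ ^ ((EI A \ M).card - (EI W \ M).card) * β⁻¹ ^ (EI W \ M).card := by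
    rw [← pow_add, Nat.sub_add_cancel hle]
  rw [hpow, mul_assoc, ← mul_pow, inv_mul_cancel₀ hβ.ne', one_pow, mul_one]

theorem tt_nonneg {β : ℝ} (hβ : 0 < β) (M : Finset (Sym2 (Fin N))) (F : Finset (Finset (Fin N)))
    (W : Finset (Fin N)) (D : Finset (Sym2 (Fin N))) : 0 ≤ tt β M F W D :=
  Finset.sum_nonneg fun A _ => (wt_pos hβ M W A).le

/-- Maker claims an edge which is not inside `W`. -/
theorem tt_insert_M {β : ℝ} (hβ : 0 < β) {M : Finset (Sym2 (Fin N))}
    (F : Finset (Finset (Fin N))) {W : Finset (Fin N)} (D : Finset (Sym2 (Fin N)))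
    {x : Sym2 (Fin N)} (hxM : x ∉ M) (hxW : x ∉ EI W) :
    tt β (insert x M) F W D = tt β M F W D + (β - 1) * tt β M F W (insert x D) := by
  unfold tt
  have hfil : F.filter (fun A => W ⊆ A ∧ insert x D ⊆ EI A) =
      (F.filter (fun A => W ⊆ A ∧ D ⊆ EI A)).filter (fun A => x ∈ EI A) := by
    ext A
    simp only [mem_filter, Finset.insert_subset_iff]
    tauto
  rw [hfil, Finset.mul_sum, Finset.sum_filter (s := F.filter (fun A => W ⊆ A ∧ D ⊆ EI A)),
    ← Finset.sum_add_distrib]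
  apply Finset.sum_congr rfl
  intro A _
  by_cases hxA : x ∈ EI A
  · rw [if_pos hxA]
    unfold wt
    have hx : x ∈ (EI A \ EI W) \ M := by
      simp only [mem_sdiff]
      exact ⟨⟨hxA, hxW⟩, hxM⟩
    have heq : (EI A \ EI W) \ (insert x M) = ((EI A \ EI W) \ M).erase x := by
      ext e
      simp only [mem_sdiff, mem_insert, mem_erase]
      tauto
    rw [heq, Finset.card_erase_of_mem hx]
    have hpos : 0 < ((EI A \ EI W) \ M).card := Finset.card_pos.2 ⟨x, hx⟩
    obtain ⟨n, hn⟩ : ∃ n, ((EI A \ EI W) \ M).card = n + 1 := ⟨_, (Nat.succ_pred_eq_of_pos hpos).symm⟩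
    rw [hn, Nat.add_sub_cancel, pow_succ]
    field_simp
    ring
  · rw [if_neg hxA, add_zero]
    unfold wt
    congr 2
    ext e
    simp only [mem_sdiff, mem_insert]
    constructor
    · rintro ⟨h1, h2⟩
      exact ⟨h1, fun h => h2 (Or.inr h)⟩
    · rintro ⟨h1, h2⟩
      refine ⟨h1, ?_⟩
      rintro (rfl | h)
      · exact hxA h1.1
      · exact h2 h

/-- Maker claims an edge inside `W`. -/
theorem tt_insert_M_of_mem (β : ℝ) (M : Finset (Sym2 (Fin N)))
    (F : Finset (Finset (Fin N))) {W : Finset (Fin N)} (D : Finset (Sym2 (Fin N)))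
    {x : Sym2 (Fin N)} (hxW : x ∈ EI W) : tt β (insert x M) F W D = tt β M F W D := by
  unfold tt wt
  apply Finset.sum_congr rfl
  intro A _
  congr 2
  ext e
  simp only [mem_sdiff, mem_insert]
  constructor
  · rintro ⟨h1, h2⟩
    exact ⟨h1, fun h => h2 (Or.inr h)⟩
  · rintro ⟨h1, h2⟩
    refine ⟨h1, ?_⟩
    rintro (rfl | h)
    · exact h1.2 hxW
    · exact h2 h

/-- Breaker claims an edge. -/
theorem tt_brk (β : ℝ) (M : Finset (Sym2 (Fin N)))
    (F : Finset (Finset (Fin N))) (W : Finset (Fin N)) (D : Finset (Sym2 (Fin N)))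
    (y : Sym2 (Fin N)) :
    tt β M (brk F {y}) W D = tt β M F W D - tt β M F W (insert y D) := by
  unfold tt
  have hfil : F.filter (fun A => W ⊆ A ∧ insert y D ⊆ EI A) =
      (F.filter (fun A => W ⊆ A ∧ D ⊆ EI A)).filter (fun A => y ∈ EI A) := by
    ext A
    simp only [mem_filter, Finset.insert_subset_iff]
    tauto
  have hfil2 : (brk F {y}).filter (fun A => W ⊆ A ∧ D ⊆ EI A) =
      (F.filter (fun A => W ⊆ A ∧ D ⊆ EI A)).filter (fun A => ¬ y ∈ EI A) := by
    ext A
    simp only [brk, mem_filter, Finset.disjoint_singleton_left]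
    tauto
  rw [hfil, hfil2, eq_sub_iff_add_eq, add_comm]
  exact Finset.sum_filter_add_sum_filter_not _ _ _

theorem tt_mono_F {β : ℝ} (hβ : 0 < β) (M : Finset (Sym2 (Fin N)))
    {F F' : Finset (Finset (Fin N))} (h : F ⊆ F') (W : Finset (Fin N))
    (D : Finset (Sym2 (Fin N))) : tt β M F W D ≤ tt β M F' W D :=
  Finset.sum_le_sum_of_subset_of_nonneg (Finset.filter_subset_filter _ h)
    fun A _ _ => (wt_pos hβ M W A).le

theorem tt_mono_M {β : ℝ} (hβ : 1 ≤ β) {M M' : Finset (Sym2 (Fin N))} (h : M ⊆ M')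
    (F : Finset (Finset (Fin N))) (W : Finset (Fin N))
    (D : Finset (Sym2 (Fin N))) : tt β M F W D ≤ tt β M' F W D := by
  unfold tt wt
  apply Finset.sum_le_sum
  intro A _
  apply pow_le_pow_of_le_one (inv_nonneg.2 (by linarith)) (inv_le_one_of_one_le₀ hβ)
  exact Finset.card_le_card (Finset.sdiff_subset_sdiff (Finset.Subset.refl _) h)

theorem tt_mono_D {β : ℝ} (hβ : 0 < β) (M : Finset (Sym2 (Fin N)))
    (F : Finset (Finset (Fin N))) (W : Finset (Fin N))
    {D D' : Finset (Sym2 (Fin N))} (h : D ⊆ D') : tt β M F W D' ≤ tt β M F W D := by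
  unfold tt
  apply Finset.sum_le_sum_of_subset_of_nonneg
  · intro A hA
    simp only [mem_filter] at hA ⊢
    exact ⟨hA.1, hA.2.1, h.trans hA.2.2⟩
  · intro A _ _
    exact (wt_pos hβ M W A).le

/-- The edge `y` inside `W` is automatically in all the cliques which contain `W`. -/
theorem tt_insert_D_of_mem (β : ℝ) (M : Finset (Sym2 (Fin N)))
    (F : Finset (Finset (Fin N))) {W : Finset (Fin N)} (D : Finset (Sym2 (Fin N)))
    {y : Sym2 (Fin N)} (hy : y ∈ EI W) : tt β M F W (insert y D) = tt β M F W D := by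
  unfold tt
  congr 1
  ext A
  simp only [mem_filter, Finset.insert_subset_iff]
  constructor
  · rintro ⟨h1, h2, _, h3⟩
    exact ⟨h1, h2, h3⟩
  · rintro ⟨h1, h2, h3⟩
    exact ⟨h1, h2, EI_mono h2 hy, h3⟩

/-- From `W` to a bigger vertex set. -/
theorem tt_jump {β : ℝ} (hβ : 1 ≤ β) (M : Finset (Sym2 (Fin N)))
    (F : Finset (Finset (Fin N))) {W W' : Finset (Fin N)} (D : Finset (Sym2 (Fin N)))
    (hWW : W ⊆ W') (h : ∀ A : Finset (Fin N), W ⊆ A → D ⊆ EI A → W' ⊆ A) :
    tt β M F W D ≤ tt β M F W' ∅ := by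
  have hβ0 : 0 < β := by linarith
  have h1 : tt β M F W D ≤ ∑ A ∈ F.filter (fun A => W ⊆ A ∧ D ⊆ EI A), wt β M W' A := by
    unfold tt wt
    apply Finset.sum_le_sum
    intro A _
    apply pow_le_pow_of_le_one (inv_nonneg.2 hβ0.le) (inv_le_one_of_one_le₀ hβ)
    apply Finset.card_le_card
    apply Finset.sdiff_subset_sdiff _ (Finset.Subset.refl _)
    exact Finset.sdiff_subset_sdiff (Finset.Subset.refl _) (EI_mono hWW)
  refine h1.trans ?_
  unfold tt
  apply Finset.sum_le_sum_of_subset_of_nonneg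
  · intro A hA
    simp only [mem_filter] at hA ⊢
    exact ⟨hA.1, h A hA.2.1 hA.2.2, Finset.empty_subset _⟩
  · intro A _ _
    exact (wt_pos hβ0 M W' A).le

theorem brk_subset (F : Finset (Finset (Fin N))) (Y : Finset (Sym2 (Fin N))) : brk F Y ⊆ F :=
  Finset.filter_subset _ _

theorem brk_empty (F : Finset (Finset (Fin N))) : brk F ∅ = F := by
  simp [brk]

theorem brk_insert (F : Finset (Finset (Fin N))) (Y : Finset (Sym2 (Fin N))) (y : Sym2 (Fin N)) :
    brk F (insert y Y) = brk (brk F Y) {y} := by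
  ext A
  simp only [brk, mem_filter, Finset.disjoint_insert_left, Finset.disjoint_singleton_left]
  tauto

theorem cf_nonneg {P : Par} (hP : P.Good) (M : Finset (Sym2 (Fin N)))
    (F : Finset (Finset (Fin N))) (W : Finset (Fin N)) : 0 ≤ cf P M F W :=
  mul_nonneg (mul_nonneg (hP.lam_pos _).le (hP.th_pos _).le) (Real.exp_pos _).le

theorem Par.Good.β_pos {P : Par} (hP : P.Good) : 0 < P.β := lt_of_lt_of_le one_pos hP.hβ

theorem cf_mono_F {P : Par} (hP : P.Good) (M : Finset (Sym2 (Fin N)))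
    {F F' : Finset (Finset (Fin N))} (h : F ⊆ F') (W : Finset (Fin N)) :
    cf P M F W ≤ cf P M F' W := by
  unfold cf
  apply mul_le_mul_of_nonneg_left _ (mul_nonneg (hP.lam_pos _).le (hP.th_pos _).le)
  apply Real.exp_le_exp.2
  exact mul_le_mul_of_nonneg_left (tt_mono_F hP.β_pos M h W ∅) (hP.th_pos _).le

theorem cf_mono_M {P : Par} (hP : P.Good) {M M' : Finset (Sym2 (Fin N))} (h : M ⊆ M')
    (F : Finset (Finset (Fin N))) (W : Finset (Fin N)) :
    cf P M F W ≤ cf P M' F W := by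
  unfold cf
  apply mul_le_mul_of_nonneg_left _ (mul_nonneg (hP.lam_pos _).le (hP.th_pos _).le)
  apply Real.exp_le_exp.2
  exact mul_le_mul_of_nonneg_left (tt_mono_M hP.hβ h F W ∅) (hP.th_pos _).le

end Pool.Agent.Helper78.CG
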