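import Pool.Agent.Helper78.CG.Caps

set_option autoImplicit false

namespace Pool.Agent.Helper78.CG

open Finset Pool.Agent.Helper25.CliqueGame

variable {N : ℕ}

/-- Breaker claims `y`: the value of another edge `e`.
Proof: write `cf', tt'` for `brk F {y}`.  For `W ∈ WW`, `e ∉ EI W`:
`tt' W {e} = tt W {e} - tt W {y, e}` (`tt_brk`) and
`cf W * tt W {e} - cf' W * tt' W {e} ≤ ν * cf W * tt W {e} + cf W * tt W {y, e}`:
if `y ∉ EI W` use `cf' = cf * exp (- th * tt W {y}) ≥ cf * (1 - ν)`; if `y ∈ EI W` then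
`tt' W {e} = 0` and `tt W {y, e} = tt W {e}` (`tt_insert_D_of_mem`).
Sum (`sum_cf_tt_le` for `D = {e}` and `D = {y, e}`, `T_le`, `T2_le`):
`RR e - RR' e ≤ ν * 4 * cap 2 + 4 * cap 3`, and `tt' ∅ {e} ≤ tt ∅ {e}`. -/
theorem VV_breaker {P : Par} (hP : P.Good) {M : Finset (Sym2 (Fin N))}
    {F : Finset (Finset (Fin N))} (h : St P 4 M F) {y e : Sym2 (Fin N)} (hy : y ∈ edges N)
    (he : e ∈ edges N) (hne : e ≠ y) :
    VV P M (brk F {y}) e ≤ VV P M F e + kap P := by
  have hβ0 : 0 < P.β := hP.β_pos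
  have hν0 : 0 ≤ P.ν := hP.hν0
  have hterm : ∀ W ∈ (WW N P).filter (fun W => e ∉ EI W),
      cf P M F W * tt P.β M F W {e} - cf P M (brk F {y}) W * tt P.β M (brk F {y}) W {e} ≤
        P.ν * (cf P M F W * tt P.β M F W {e}) + cf P M F W * tt P.β M F W {y, e} := by
    intro W hW
    have hWW : W ∈ WW N P := (Finset.mem_filter.1 hW).1
    have hW2 : 2 ≤ W.card ∧ W.card < P.q := by
      simpa [WW] using hWW
    have hth : 0 < P.th W.card := hP.th_pos _
    have hlt : 0 ≤ P.lam W.card * P.th W.card := mul_nonneg (hP.lam_pos _).le hth.le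
    have hcf0 : 0 ≤ cf P M F W := cf_nonneg hP M F W
    have hT0 : 0 ≤ tt P.β M F W {e} := tt_nonneg hβ0 M F W {e}
    have hU0 : 0 ≤ tt P.β M F W {y, e} := tt_nonneg hβ0 M F W {y, e}
    have htt' : tt P.β M (brk F {y}) W {e} = tt P.β M F W {e} - tt P.β M F W {y, e} :=
      tt_brk P.β M F W {e} y
    have hT'0 : 0 ≤ tt P.β M (brk F {y}) W {e} := tt_nonneg hβ0 M _ W {e}
    by_cases hyW : y ∈ EI W
    · have hU : tt P.β M F W {y, e} = tt P.β M F W {e} := tt_insert_D_of_mem P.β M F {e} hyW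
      rw [htt', hU]
      have h1 : 0 ≤ P.ν * (cf P M F W * tt P.β M F W {e}) :=
        mul_nonneg hν0 (mul_nonneg hcf0 hT0)
      have h2 : cf P M (brk F {y}) W * (tt P.β M F W {e} - tt P.β M F W {e}) = 0 := by
        rw [sub_self, mul_zero]
      linarith
    · have hy1 : tt P.β M (brk F {y}) W ∅ = tt P.β M F W ∅ - tt P.β M F W {y} := by
        have := tt_brk P.β M F W ∅ y
        rwa [insert_empty_eq] at this
      have hz : P.th W.card * tt P.β M F W {y} ≤ P.ν := by
        have h1 : tt P.β M F W {y} ≤ P.cap (W.card + 1) := tt_jump_cap hP h hW2.1 hy hyW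
        have h2 := hP.nu_th W.card hW2.1 hW2.2
        have h3 : P.cap (W.card + 1) ≤ P.β * P.cap (W.card + 1) := by
          have h4 := hP.cap_nonneg (W.card + 1)
          nlinarith [hP.hβ]
        exact (mul_le_mul_of_nonneg_left (h1.trans h3) hth.le).trans h2
      have hcf' : (1 - P.ν) * cf P M F W ≤ cf P M (brk F {y}) W := by
        have h1 : cf P M (brk F {y}) W =
            Real.exp (-(P.th W.card * tt P.β M F W {y})) * cf P M F W := by
          unfold cf
          rw [hy1]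
          have h2 : P.th W.card * (tt P.β M F W ∅ - tt P.β M F W {y}) =
              -(P.th W.card * tt P.β M F W {y}) + P.th W.card * tt P.β M F W ∅ := by ring
          rw [h2, Real.exp_add]
          ring
        rw [h1]
        apply mul_le_mul_of_nonneg_right _ hcf0
        have h3 := Real.add_one_le_exp (-(P.th W.card * tt P.β M F W {y}))
        linarith
      have h5 : (1 - P.ν) * cf P M F W * tt P.β M (brk F {y}) W {e} ≤
          cf P M (brk F {y}) W * tt P.β M (brk F {y}) W {e} :=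
        mul_le_mul_of_nonneg_right hcf' hT'0
      rw [htt'] at h5 ⊢
      have h6 : 0 ≤ P.ν * (cf P M F W * tt P.β M F W {y, e}) :=
        mul_nonneg hν0 (mul_nonneg hcf0 hU0)
      nlinarith
  have hsum : RR P M F e - RR P M (brk F {y}) e ≤ 4 * P.ν * P.cap 2 + 4 * P.cap 3 := by
    unfold RR
    rw [← Finset.sum_sub_distrib]
    refine (Finset.sum_le_sum hterm).trans ?_
    rw [Finset.sum_add_distrib, ← Finset.mul_sum]
    have h1 : ∑ W ∈ (WW N P).filter (fun W => e ∉ EI W), cf P M F W * tt P.β M F W {e} ≤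
        4 * tt P.β M F ∅ {e} := sum_cf_tt_le hP h.2 {e} (fun W => e ∉ EI W)
    have h2 : ∑ W ∈ (WW N P).filter (fun W => e ∉ EI W), cf P M F W * tt P.β M F W {y, e} ≤
        4 * tt P.β M F ∅ {y, e} := sum_cf_tt_le hP h.2 {y, e} (fun W => e ∉ EI W)
    have h3 : tt P.β M F ∅ {e} ≤ P.cap 2 := T_le hP h he
    have h4 : tt P.β M F ∅ {y, e} ≤ P.cap 3 := T2_le hP h hy he (Ne.symm hne)
    have h5 := mul_le_mul_of_nonneg_left (h1.trans (mul_le_mul_of_nonneg_left h3 (by norm_num : (0:ℝ) ≤ 4))) hν0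
    linarith
  have h1 : tt P.β M (brk F {y}) ∅ {e} ≤ tt P.β M F ∅ {e} :=
    tt_mono_F hβ0 M (brk_subset F {y}) ∅ {e}
  have h2 : P.cap 3 ≤ P.β * P.cap 3 := by
    have h4 := hP.cap_nonneg 3
    nlinarith [hP.hβ]
  unfold VV kap
  linarith

end Pool.Agent.Helper78.CG
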