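import Pool.Agent.Helper78.CG.LLBreaker
import Pool.Agent.Helper78.CG.VVBreaker

set_option autoImplicit false

namespace Pool.Agent.Helper78.CG

open Finset Pool.Agent.Helper25.CliqueGame

variable {N : ℕ}

/-- Breaker's turn.
Proof: `Finset.induction_on Y` (`brk_empty`, `brk_insert`, `St_brk`).  Step: `y ∉ Y`:
`LL (brk F (insert y Y)) ≥ LL (brk F Y) - VV (brk F Y) y - 4 ν cap 2` (`LL_breaker`) and
`VV (brk F Y) y ≤ VV F y + |Y| kap`; `|Y|^2 + |Y| ≤ (|Y|+1)^2`, `kap ≥ 0`. -/
theorem breaker_turn {P : Par} (hP : P.Good) {M : Finset (Sym2 (Fin N))}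
    {F : Finset (Finset (Fin N))} (h : St P 4 M F) (Y : Finset (Sym2 (Fin N)))
    (hY : Y ⊆ edges N) :
    LL P M F - ∑ y ∈ Y, VV P M F y - (Y.card : ℝ) ^ 2 * kap P - Y.card * (4 * P.ν * P.cap 2) ≤
      LL P M (brk F Y) ∧
    ∀ z ∈ edges N, z ∉ Y → VV P M (brk F Y) z ≤ VV P M F z + Y.card * kap P := by
  have hkap : 0 ≤ kap P := by
    unfold kap
    have h1 := hP.hν0
    have h2 := hP.cap_nonneg 2
    have h3 := hP.cap_nonneg 3
    have h4 := hP.β_pos
    positivity
  induction Y using Finset.induction_on with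
  | empty =>
    rw [brk_empty]
    refine ⟨by simp, fun z _ _ => by simp⟩
  | insert y Y hy ih =>
    rw [Finset.insert_subset_iff] at hY
    obtain ⟨ih1, ih2⟩ := ih hY.2
    have hSt := St_brk hP h Y
    have h1 := LL_breaker hP hSt hY.1
    have h2 := ih2 y hY.1 hy
    rw [brk_insert, Finset.card_insert_of_notMem hy, Finset.sum_insert hy]
    constructor
    · refine le_trans ?_ h1
      push_cast
      have h5 : 0 ≤ (Y.card : ℝ) * kap P := by positivity
      nlinarith
    · intro z hz hzY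
      rw [Finset.mem_insert, not_or] at hzY
      have h3 := VV_breaker hP hSt hY.1 hz hzY.1
      have h4 := ih2 z hz hzY.2
      push_cast
      linarith

/-- The last turn: Breaker cannot kill all cliques with `b` edges.
Proof: `LL ≤ tt ∅ ∅` (`SS ≥ 0`); by induction on `Y`,
`tt P.β M (brk F Y) ∅ ∅ ≥ tt P.β M F ∅ ∅ - |Y| cap 2` (`tt_brk`, `tt_mono_F`, `T_le`), so
`tt P.β M (brk F Y) ∅ ∅ > 0` and the family is not empty. -/
theorem last_turn {P : Par} (hP : P.Good) {b : ℕ} {M : Finset (Sym2 (Fin N))}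
    {F : Finset (Finset (Fin N))} (h : St P 4 M F) (hL : b * P.cap 2 < LL P M F)
    {Y : Finset (Sym2 (Fin N))} (hY : Y ⊆ edges N) (hYb : Y.card ≤ b) :
    (brk F Y).Nonempty := by
  have hSS : 0 ≤ SS P M F := by
    unfold SS
    exact Finset.sum_nonneg fun W _ => mul_nonneg (hP.lam_pos _).le (Real.exp_pos _).le
  have key : ∀ Z : Finset (Sym2 (Fin N)), Z ⊆ edges N →
      tt P.β M F ∅ ∅ - Z.card * P.cap 2 ≤ tt P.β M (brk F Z) ∅ ∅ := by
    intro Z hZ
    induction Z using Finset.induction_on with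
    | empty =>
      rw [brk_empty]
      simp
    | insert y Z hy ih =>
      rw [Finset.insert_subset_iff] at hZ
      have h1 := ih hZ.2
      have h2 := T_le hP (St_brk hP h Z) hZ.1
      rw [brk_insert, tt_brk, Finset.card_insert_of_notMem hy]
      push_cast
      have h3 : insert y (∅ : Finset (Sym2 (Fin N))) = {y} := rfl
      rw [h3]
      linarith
  have h1 := key Y hY
  have h2 : (Y.card : ℝ) * P.cap 2 ≤ b * P.cap 2 := by
    apply mul_le_mul_of_nonneg_right _ (hP.cap_nonneg 2)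
    exact_mod_cast hYb
  have h3 : LL P M F = tt P.β M F ∅ ∅ - SS P M F := rfl
  rw [Finset.nonempty_iff_ne_empty]
  intro h0
  rw [h0] at h1
  have h4 : tt P.β M (∅ : Finset (Finset (Fin N))) ∅ ∅ = 0 := by
    unfold tt
    simp
  rw [h4] at h1
  linarith

end Pool.Agent.Helper78.CG
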