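import Pool.Agent.Helper78.CG.Swap

set_option autoImplicit false

namespace Pool.Agent.Helper78.CG

open Finset Pool.Agent.Helper25.CliqueGame

variable {N : ℕ}

/-- If all dangers are at most `4`, then all `tt W ∅` are below the caps.
Proof: if no `A ∈ F` contains `W` then `tt = 0 ≤ cap`.  Otherwise let `W ⊆ A ∈ F`, so
`W.card ≤ q`.  If `W.card = q` then `W = A` is the only such clique and `tt = 1 ≤ cap q`.
If `W.card < q`: the term of `W` in `Om A` is at most `4` and `β^(..) ≥ 1`, so
`lam * th * exp (th * tt) ≤ 4 = lam * th * exp (th * cap)`, hence `tt ≤ cap`. -/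
theorem tt_le_cap {P : Par} (hP : P.Good) {M : Finset (Sym2 (Fin N))}
    {F : Finset (Finset (Fin N))} (h : St P 4 M F) {W : Finset (Fin N)} (hW : 2 ≤ W.card) :
    tt P.β M F W ∅ ≤ P.cap W.card := by
  by_cases hex : ∃ A ∈ F, W ⊆ A
  · obtain ⟨A, hA, hWA⟩ := hex
    have hAq : A.card = P.q := h.1 A hA
    have hWq : W.card ≤ P.q := hAq ▸ Finset.card_le_card hWA
    rcases hWq.eq_or_lt with hq | hq
    · have huniq : ∀ A' ∈ F, W ⊆ A' → A' = W := fun A' hA' hWA' =>
        (Finset.eq_of_subset_of_card_le hWA' (by rw [h.1 A' hA', hq])).symm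
      have h1 : tt P.β M F W ∅ ≤ 1 := by
        unfold tt
        have hsub : F.filter (fun A => W ⊆ A ∧ ∅ ⊆ EI A) ⊆ {W} := by
          intro A' hA'
          rw [Finset.mem_filter] at hA'
          rw [Finset.mem_singleton]
          exact huniq A' hA'.1 hA'.2.1
        calc ∑ A ∈ F.filter (fun A => W ⊆ A ∧ ∅ ⊆ EI A), wt P.β M W A
            ≤ ∑ A ∈ ({W} : Finset (Finset (Fin N))), wt P.β M W A :=
              Finset.sum_le_sum_of_subset_of_nonneg hsub
                fun A _ _ => (wt_pos hP.β_pos M W A).le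
          _ = wt P.β M W W := Finset.sum_singleton _ _
          _ ≤ 1 := wt_le_one hP.hβ M W W
      calc tt P.β M F W ∅ ≤ 1 := h1
        _ ≤ P.cap P.q := hP.cap_q
        _ = P.cap W.card := by rw [hq]
    · have hmem : W ∈ (WW N P).filter (fun W => W ⊆ A) := by
        refine Finset.mem_filter.2 ⟨?_, hWA⟩
        exact Finset.mem_filter.2 ⟨Finset.mem_univ _, hW, hq⟩
      have hOm := h.2 A hA
      have hterm : cf P M F W * P.β ^ (EI W \ M).card ≤ Om P M F A := by
        unfold Om
        exact Finset.single_le_sum (f := fun W => cf P M F W * P.β ^ (EI W \ M).card)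
          (fun W' _ => mul_nonneg (cf_nonneg hP M F W') (pow_nonneg hP.β_pos.le _)) hmem
      have hβ1 : (1 : ℝ) ≤ P.β ^ (EI W \ M).card := one_le_pow₀ hP.hβ
      have hcf : cf P M F W ≤ 4 := by
        calc cf P M F W = cf P M F W * 1 := (mul_one _).symm
          _ ≤ cf P M F W * P.β ^ (EI W \ M).card :=
            mul_le_mul_of_nonneg_left hβ1 (cf_nonneg hP M F W)
          _ ≤ 4 := hterm.trans hOm
      rw [← hP.cap_exp W.card hW hq] at hcf
      unfold cf at hcf
      have hlt : 0 < P.lam W.card * P.th W.card := mul_pos (hP.lam_pos _) (hP.th_pos _)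
      have h2 := le_of_mul_le_mul_left hcf hlt
      have h3 := Real.exp_le_exp.1 h2
      exact le_of_mul_le_mul_left h3 (hP.th_pos _)
  · have h0 : tt P.β M F W ∅ = 0 := by
      unfold tt
      rw [Finset.sum_eq_zero]
      intro A hA
      rw [Finset.mem_filter] at hA
      exact absurd ⟨A, hA.1, hA.2.1⟩ hex
    rw [h0]
    exact hP.cap_nonneg _

/-- Jump: an edge `e` not inside `W`.  Proof: `tt_jump` to `W ∪ V` (`V` the vertex set of `e`),
which has at least `W.card + 1` elements, `tt_le_cap` and `cap_anti`. -/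
theorem tt_jump_cap {P : Par} (hP : P.Good) {M : Finset (Sym2 (Fin N))}
    {F : Finset (Finset (Fin N))} (h : St P 4 M F) {W : Finset (Fin N)} (hW : 2 ≤ W.card)
    {e : Sym2 (Fin N)} (he : e ∈ edges N) (heW : e ∉ EI W) :
    tt P.β M F W {e} ≤ P.cap (W.card + 1) := by
  obtain ⟨V, _, hVA⟩ := exists_verts he
  have hVW : ¬ V ⊆ W := fun hh => heW ((hVA W).2 hh)
  have hcard : W.card + 1 ≤ (W ∪ V).card := by
    refine Finset.card_lt_card ?_
    refine ⟨Finset.subset_union_left, fun hh => hVW (Finset.subset_union_right.trans hh)⟩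
  have h1 : tt P.β M F W {e} ≤ tt P.β M F (W ∪ V) ∅ := by
    refine tt_jump hP.hβ M F {e} Finset.subset_union_left fun A hWA hA => ?_
    refine Finset.union_subset hWA ((hVA A).1 ?_)
    exact hA (Finset.mem_singleton_self e)
  refine h1.trans ((tt_le_cap hP h (by omega)).trans (hP.cap_anti hcard))

/-- Proof: `tt_jump` from `∅` to the vertex set of `e`. -/
theorem T_le {P : Par} (hP : P.Good) {M : Finset (Sym2 (Fin N))}
    {F : Finset (Finset (Fin N))} (h : St P 4 M F)
    {e : Sym2 (Fin N)} (he : e ∈ edges N) : tt P.β M F ∅ {e} ≤ P.cap 2 := by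
  obtain ⟨V, hV2, hVA⟩ := exists_verts he
  have h1 : tt P.β M F ∅ {e} ≤ tt P.β M F V ∅ :=
    tt_jump hP.hβ M F {e} (Finset.empty_subset _) fun A _ hA =>
      (hVA A).1 (hA (Finset.mem_singleton_self e))
  have h2 := tt_le_cap hP h (W := V) (by omega)
  rw [hV2] at h2
  exact h1.trans h2

private theorem Caps_verts_ne {e y : Sym2 (Fin N)} (he : e ∈ edges N) (hy : y ∈ edges N)
    {V : Finset (Fin N)} (hV : V.card = 2) (heV : e ∈ EI V) (hyV : y ∈ EI V) : e = y := by
  have key : ∀ z : Sym2 (Fin N), z ∈ edges N → z ∈ EI V → ∃ a b, z = s(a, b) ∧ V = {a, b} := by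
    intro z hz hzV
    rw [mem_EI] at hzV
    induction z using Sym2.ind with
    | h u v =>
      have huv : u ≠ v := by
        have h := (Finset.mem_filter.1 hz).2
        simpa using h
      refine ⟨u, v, rfl, ?_⟩
      symm
      refine Finset.eq_of_subset_of_card_le ?_ (by rw [hV, Finset.card_pair huv])
      intro x hx
      rcases Finset.mem_insert.1 hx with rfl | hx
      · exact hzV.2 _ (Sym2.mem_mk_left _ _)
      · rw [Finset.mem_singleton] at hx
        subst hx
        exact hzV.2 _ (Sym2.mem_mk_right _ _)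
  obtain ⟨a, b, rfl, h1⟩ := key e he heV
  obtain ⟨c, d, rfl, h2⟩ := key y hy hyV
  have hab : a ≠ b := by
    have h := (Finset.mem_filter.1 he).2
    simpa using h
  rw [h1] at h2
  have ha : a ∈ ({c, d} : Finset (Fin N)) := h2 ▸ Finset.mem_insert_self a {b}
  have hb : b ∈ ({c, d} : Finset (Fin N)) :=
    h2 ▸ Finset.mem_insert_of_mem (Finset.mem_singleton_self b)
  rw [Finset.mem_insert, Finset.mem_singleton] at ha hb
  rcases ha with rfl | rfl <;> rcases hb with rfl | rfl
  · exact absurd rfl hab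
  · rfl
  · exact Sym2.eq_swap
  · exact absurd rfl hab

/-- Proof: `tt_jump` from `∅` to the union of the two vertex sets, which has at least three
elements. -/
theorem T2_le {P : Par} (hP : P.Good) {M : Finset (Sym2 (Fin N))}
    {F : Finset (Finset (Fin N))} (h : St P 4 M F)
    {e y : Sym2 (Fin N)} (he : e ∈ edges N) (hy : y ∈ edges N) (hne : e ≠ y) :
    tt P.β M F ∅ {e, y} ≤ P.cap 3 := by
  obtain ⟨V, hV2, hVA⟩ := exists_verts he
  obtain ⟨V', hV2', hVA'⟩ := exists_verts hy
  have hcard : 3 ≤ (V ∪ V').card := by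
    by_contra hlt
    push Not at hlt
    have hVV : V = V ∪ V' :=
      Finset.eq_of_subset_of_card_le Finset.subset_union_left (by omega)
    have hsub : V' ⊆ V := by
      rw [hVV]
      exact Finset.subset_union_right
    exact hne (Caps_verts_ne he hy hV2 ((hVA V).2 (Finset.Subset.refl _)) ((hVA' V).2 hsub))
  have h1 : tt P.β M F ∅ {e, y} ≤ tt P.β M F (V ∪ V') ∅ :=
    tt_jump hP.hβ M F {e, y} (Finset.empty_subset _) fun A _ hA =>
      Finset.union_subset ((hVA A).1 (hA (Finset.mem_insert_self e {y})))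
        ((hVA' A).1 (hA (Finset.mem_insert_of_mem (Finset.mem_singleton_self y))))
  exact h1.trans ((tt_le_cap hP h (by omega)).trans (hP.cap_anti hcard))

theorem RR_nonneg {P : Par} (hP : P.Good) (M : Finset (Sym2 (Fin N)))
    (F : Finset (Finset (Fin N))) (e : Sym2 (Fin N)) : 0 ≤ RR P M F e :=
  Finset.sum_nonneg fun W _ => mul_nonneg (cf_nonneg hP M F W) (tt_nonneg hP.β_pos M F W _)

/-- Proof: `sum_cf_tt_le` and `T_le`. -/
theorem RR_le {P : Par} (hP : P.Good) {M : Finset (Sym2 (Fin N))}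
    {F : Finset (Finset (Fin N))} (h : St P 4 M F)
    {e : Sym2 (Fin N)} (he : e ∈ edges N) : RR P M F e ≤ 4 * P.cap 2 := by
  unfold RR
  refine (sum_cf_tt_le hP h.2 {e} (fun W => e ∉ EI W)).trans ?_
  exact mul_le_mul_of_nonneg_left (T_le hP h he) (by norm_num)

end Pool.Agent.Helper78.CG
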