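import Pool.Agent.Helper78.CG.MakerTurn
import Pool.Agent.Helper78.CG.BreakerTurn

set_option autoImplicit false

namespace Pool.Agent.Helper78.CG

open Finset Pool.Agent.Helper25.CliqueGame

variable {N : ℕ}

theorem kap_nonneg {P : Par} (hP : P.Good) : 0 ≤ kap P := by
  have h1 := hP.hν0
  have h2 := hP.cap_nonneg 2
  have h3 := hP.cap_nonneg 3
  have h4 := hP.β_pos
  unfold kap
  positivity

/-- One full turn. -/
theorem full_turn {P : Par} (hP : P.Good) {m b : ℕ} (hm : 1 ≤ m)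
    (hβ : P.β = 1 + (b : ℝ) / m) (hν : 2 * Real.exp (m * P.ν) ≤ 4)
    {M U : Finset (Sym2 (Fin N))} {F : Finset (Finset (Fin N))} (hU : U ⊆ edges N)
    (hUM : Disjoint U M) (h : St P 2 M F) (hc : m ≤ U.card) :
    ∃ X ⊆ U, X.card = m ∧ ∀ Y ⊆ U \ X, Y.card = b →
      LL P M F - lossT P m b ≤ LL P (M ∪ X) (brk F Y) := by
  obtain ⟨X, hXU, hXc, hSt, v, hL, hV⟩ := maker_turn hP hU hUM h hν m le_rfl hc
  refine ⟨X, hXU, hXc, fun Y hY hYc => ?_⟩
  have hSt4 : St P 4 (M ∪ X) F := ⟨hSt.1, fun A hA => (hSt.2 A hA).trans hν⟩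
  have hb := (breaker_turn hP hSt4 Y (hY.trans (Finset.sdiff_subset.trans hU))).1
  have hm0 : (0 : ℝ) < m := by exact_mod_cast hm
  have hb0 : (0 : ℝ) ≤ b := by positivity
  have hsum : (m : ℝ) * ∑ y ∈ Y, VV P (M ∪ X) F y ≤ b * (v + m ^ 2 * kap P) := by
    rw [Finset.mul_sum]
    calc ∑ y ∈ Y, (m : ℝ) * VV P (M ∪ X) F y ≤ ∑ _y ∈ Y, (v + m ^ 2 * kap P) :=
          Finset.sum_le_sum fun y hy => hV y (hY hy)
      _ = b * (v + m ^ 2 * kap P) := by rw [Finset.sum_const, hYc, nsmul_eq_mul]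
  have hα : P.β - 1 = (b : ℝ) / m := by rw [hβ]; ring
  have hsum2 : ∑ y ∈ Y, VV P (M ∪ X) F y ≤ (P.β - 1) * v + b * m * kap P := by
    have h1 : ∑ y ∈ Y, VV P (M ∪ X) F y ≤ b * (v + m ^ 2 * kap P) / m := by
      rw [le_div_iff₀ hm0]; linarith
    have h2 : b * (v + m ^ 2 * kap P) / m = (P.β - 1) * v + b * m * kap P := by
      rw [hα]; field_simp
    linarith
  have h3 : (m : ℝ) * ((P.β - 1) * (4 * P.ν * P.cap 2)) = b * (4 * P.ν * P.cap 2) := by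
    rw [hα]; field_simp
  rw [hYc] at hb
  unfold lossT
  rw [h3] at hL
  linarith [hb, hL, hsum2]

end Pool.Agent.Helper78.CG
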