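import Pool.Agent.Helper78.CG.Basic

set_option autoImplicit false

namespace Pool.Agent.Helper78.CG

open Finset Pool.Agent.Helper25.CliqueGame

variable {N : ℕ}

/-- Removing one clique of danger at least `2` from the family does not decrease the potential.
Proof: `tt ∅ ∅` drops by `w = wt ∅ A`.  For `W ∈ WW` with `W ⊆ A` the number `tt W ∅` drops by
`d = wt W A ≤ 1` (`wt_le_one`), and `exp (th t) - exp (th (t - d)) = exp (th t) (1 - exp (- th d))
≥ exp (th t) * th * d / 2` because `0 ≤ th * d ≤ 1`; with `wt_eq` the term of `SS` drops by at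
least `cf W * w * β^|EI W \ M| / 2`.  So `SS` drops by at least `w * Om A / 2 ≥ w`. -/
theorem LL_erase {P : Par} (hP : P.Good) (M : Finset (Sym2 (Fin N)))
    {F : Finset (Finset (Fin N))} {A : Finset (Fin N)} (hA : A ∈ F) (h : 2 ≤ Om P M F A) :
    LL P M F ≤ LL P M (F.erase A) := by
  have hβ0 : 0 < P.β := hP.β_pos
  have key : ∀ x : ℝ, 0 ≤ x → x ≤ 1 → x / 2 ≤ 1 - Real.exp (-x) := by
    intro x h0 h1
    have h2 : Real.exp (-x) ≤ 1 / (1 + x) := by
      rw [Real.exp_neg, ← one_div]
      apply one_div_le_one_div_of_le (by linarith)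
      linarith [Real.add_one_le_exp x]
    have h3 : x / 2 ≤ 1 - 1 / (1 + x) := by
      have h4 : 1 - 1 / (1 + x) = x / (1 + x) := by
        have : (1 + x) ≠ 0 := by linarith
        field_simp
        ring
      rw [h4]
      apply div_le_div_of_nonneg_left h0 (by linarith) (by linarith)
    linarith
  have herase : ∀ W : Finset (Fin N), tt P.β M F W ∅ =
      tt P.β M (F.erase A) W ∅ + if W ⊆ A then wt P.β M W A else 0 := by
    intro W
    unfold tt
    have hfe : (F.erase A).filter (fun B => W ⊆ B ∧ (∅ : Finset (Sym2 (Fin N))) ⊆ EI B) =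
        (F.filter (fun B => W ⊆ B ∧ (∅ : Finset (Sym2 (Fin N))) ⊆ EI B)).erase A := by
      ext B
      simp only [mem_filter, mem_erase]
      tauto
    rw [hfe]
    by_cases hWA : W ⊆ A
    · rw [if_pos hWA]
      have hmem : A ∈ F.filter (fun B => W ⊆ B ∧ (∅ : Finset (Sym2 (Fin N))) ⊆ EI B) := by
        simp only [mem_filter]
        exact ⟨hA, hWA, Finset.empty_subset _⟩
      rw [Finset.sum_erase_add _ _ hmem]
    · rw [if_neg hWA, add_zero]
      congr 1
      rw [Finset.erase_eq_of_notMem]
      simp only [mem_filter]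
      exact fun h' => hWA h'.2.1
  have hterm : ∀ W ∈ WW N P,
      P.lam W.card * Real.exp (P.th W.card * tt P.β M (F.erase A) W ∅) +
        (if W ⊆ A then cf P M F W * P.β ^ (EI W \ M).card * (wt P.β M ∅ A / 2) else 0)
      ≤ P.lam W.card * Real.exp (P.th W.card * tt P.β M F W ∅) := by
    intro W hW
    have hW' : 2 ≤ W.card ∧ W.card < P.q := by
      simpa [WW] using hW
    by_cases hWA : W ⊆ A
    · rw [if_pos hWA]
      have h1 := herase W
      rw [if_pos hWA] at h1
      set d := wt P.β M W A with hd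
      have hd0 : 0 < d := wt_pos hβ0 M W A
      have hd1 : d ≤ 1 := wt_le_one hP.hβ M W A
      have hth0 := hP.th_pos W.card
      have hth1 := hP.th_le W.card hW'.1 hW'.2
      have hx0 : 0 ≤ P.th W.card * d := (mul_pos hth0 hd0).le
      have hx1 : P.th W.card * d ≤ 1 := by nlinarith
      have h2 := key _ hx0 hx1
      have h3 : P.th W.card * tt P.β M (F.erase A) W ∅ =
          P.th W.card * tt P.β M F W ∅ + -(P.th W.card * d) := by
        rw [h1]; ring
      rw [h3, Real.exp_add]
      have h4 : wt P.β M ∅ A * P.β ^ (EI W \ M).card = d := (wt_eq hβ0 M hWA).symm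
      have h5 : cf P M F W * P.β ^ (EI W \ M).card * (wt P.β M ∅ A / 2) =
          P.lam W.card * Real.exp (P.th W.card * tt P.β M F W ∅) * (P.th W.card * d / 2) := by
        unfold cf
        rw [← h4]
        ring
      rw [h5]
      have h6 : 0 < P.lam W.card * Real.exp (P.th W.card * tt P.β M F W ∅) :=
        mul_pos (hP.lam_pos _) (Real.exp_pos _)
      nlinarith [mul_le_mul_of_nonneg_left h2 h6.le]
    · rw [if_neg hWA, add_zero]
      have h1 := herase W
      rw [if_neg hWA, add_zero] at h1
      rw [h1]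
  have hSS : SS P M (F.erase A) + Om P M F A * (wt P.β M ∅ A / 2) ≤ SS P M F := by
    unfold SS Om
    rw [Finset.sum_mul, Finset.sum_filter, ← Finset.sum_add_distrib]
    exact Finset.sum_le_sum hterm
  have h0 := herase ∅
  rw [if_pos (Finset.empty_subset A)] at h0
  have hw0 : 0 < wt P.β M ∅ A := wt_pos hβ0 M ∅ A
  unfold LL
  nlinarith

/-- Pruning.  Proof: strong induction on `F.card` with `LL_erase`. -/
theorem prune {P : Par} (hP : P.Good) (M : Finset (Sym2 (Fin N)))
    {F : Finset (Finset (Fin N))} (hF : ∀ A ∈ F, A.card = P.q) :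
    ∃ F' ⊆ F, LL P M F ≤ LL P M F' ∧ St P 2 M F' := by
  induction hn : F.card using Nat.strong_induction_on generalizing F with
  | _ n ih =>
    subst hn
    by_cases hex : ∃ A ∈ F, 2 < Om P M F A
    · obtain ⟨A, hA, h2⟩ := hex
      obtain ⟨F', hF', h1, h3⟩ := ih (F.erase A).card (Finset.card_erase_lt_of_mem hA)
        (fun B hB => hF B (Finset.mem_of_mem_erase hB)) rfl
      exact ⟨F', hF'.trans (Finset.erase_subset _ _), (LL_erase hP M hA h2.le).trans h1, h3⟩
    · push Not at hex
      exact ⟨F, Finset.Subset.refl _, le_rfl, hF, hex⟩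

end Pool.Agent.Helper78.CG
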