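import Pool.Agent.Helper78.CG.FullTurn
import Pool.Agent.Helper78.CG.Prune

set_option autoImplicit false

namespace Pool.Agent.Helper78.CG

open Finset Pool.Agent.Helper25.CliqueGame

variable {N : ℕ}

private theorem lossT_nonneg {P : Par} (hP : P.Good) (m b : ℕ) : 0 ≤ lossT P m b := by
  have h1 := hP.hν0
  have h2 := hP.cap_nonneg 2
  have h3 := kap_nonneg hP
  unfold lossT
  positivity

/-- If the board is exhausted and `A` has no edge of Breaker, then `A` is a clique of Maker. -/
private theorem hasClique_of_full {q : ℕ} {M B : Finset (Sym2 (Fin N))} {A : Finset (Fin N)}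
    (hA : A.card = q) (hB : Disjoint B (EI A)) (hfull : edges N ⊆ M ∪ B) :
    HasClique N q M := by
  refine ⟨A, hA, fun u hu v hv huv => ?_⟩
  have he : s(u, v) ∈ EI A := by
    rw [mem_EI]
    refine ⟨mem_edges.2 huv, fun x hx => ?_⟩
    rcases Sym2.mem_iff.1 hx with rfl | rfl
    · exact hu
    · exact hv
  rcases Finset.mem_union.1 (hfull (EI_subset_edges A he)) with h | h
  · exact h
  · exact absurd he (Finset.disjoint_left.1 hB h)

/-- The invariant of Maker's strategy implies that Maker forces a clique.
Proof: induction on `n`.  `n = 0`: the board is exhausted, `0 < LL ≤ tt ∅ ∅`, so there is `A ∈ F`,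
and `EI A ⊆ M`, so `A` is a clique.  Step: replace `F` by the pruned family (`prune`), let
`U = edges N \ (M ∪ B)`.  If `m + b ≤ U.card` take the set `X` of `full_turn` (legal) and apply the
induction hypothesis to `M ∪ X`, `B ∪ Y`, `brk F' Y`.  If `U.card < m + b` take any legal `X`
(`exists_legal` with `T = ∅`); after any legal `Y` the board is exhausted and `brk F' Y` is not
empty (`last_turn`, the loss is nonnegative), so Maker has a clique; conclude with
`forces_of_W`. -/
theorem forces_of_inv {P : Par} (hP : P.Good) {m b : ℕ} (hm : 1 ≤ m)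
    (hβ : P.β = 1 + (b : ℝ) / m) (hν : 2 * Real.exp (m * P.ν) ≤ 4) :
    ∀ (n : ℕ) (M B : Finset (Sym2 (Fin N))) (F : Finset (Finset (Fin N))),
      Disjoint M B → (edges N \ (M ∪ B)).card ≤ n → (∀ A ∈ F, A.card = P.q) →
      (∀ A ∈ F, Disjoint B (EI A)) → n * lossT P m b + b * P.cap 2 < LL P M F →
      Forces (HasClique N P.q) (edges N) m b n M B := by
  intro n
  induction n with
  | zero =>
    intro M B F _ hcard hq hB hL
    have hfull : edges N ⊆ M ∪ B := by
      have h0 : edges N \ (M ∪ B) = ∅ := Finset.card_eq_zero.1 (Nat.le_zero.1 hcard)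
      exact Finset.sdiff_eq_empty_iff_subset.1 h0
    have hcap := hP.cap_nonneg 2
    have hpos : 0 < LL P M F := by
      have h1 : (0 : ℝ) ≤ b * P.cap 2 := by positivity
      have h2 : ((0 : ℕ) : ℝ) * lossT P m b = 0 := by simp
      linarith
    have hSS : 0 ≤ SS P M F := by
      unfold SS
      exact Finset.sum_nonneg fun W _ => mul_nonneg (hP.lam_pos _).le (Real.exp_pos _).le
    have htt : 0 < tt P.β M F ∅ ∅ := by
      have : LL P M F = tt P.β M F ∅ ∅ - SS P M F := rfl
      linarith
    have hne : (F.filter (fun A => (∅ : Finset (Fin N)) ⊆ A ∧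
        (∅ : Finset (Sym2 (Fin N))) ⊆ EI A)).Nonempty := by
      rw [Finset.nonempty_iff_ne_empty]
      intro h0
      unfold tt at htt
      rw [h0, Finset.sum_empty] at htt
      exact lt_irrefl _ htt
    obtain ⟨A, hA⟩ := hne
    have hAF : A ∈ F := (Finset.mem_filter.1 hA).1
    exact hasClique_of_full (hq A hAF) (hB A hAF) hfull
  | succ n ih =>
    intro M B F hMB hcard hq hB hL
    obtain ⟨F', hF', hLL, hSt⟩ := prune hP M hq
    have hloss := lossT_nonneg hP m b
    have hUE : edges N \ (M ∪ B) ⊆ edges N := Finset.sdiff_subset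
    have hUM : Disjoint (edges N \ (M ∪ B)) M := by
      rw [Finset.disjoint_left]
      intro e he heM
      exact (Finset.mem_sdiff.1 he).2 (Finset.mem_union_left _ heM)
    have hstep : ∀ X : Finset (Sym2 (Fin N)),
        edges N \ (M ∪ X ∪ B) = (edges N \ (M ∪ B)) \ X := by
      intro X
      ext a
      simp only [mem_sdiff, mem_union]
      tauto
    by_cases hc : m + b ≤ (edges N \ (M ∪ B)).card
    · obtain ⟨X, hXU, hXc, hX⟩ := full_turn hP hm hβ hν hUE hUM hSt
        (le_trans (Nat.le_add_right m b) hc)
      refine ⟨X, ⟨hXU, ?_⟩, fun Y hY => ?_⟩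
      · rw [hXc]
        exact (min_eq_left (le_trans (Nat.le_add_right m b) hc)).symm
      · obtain ⟨hY1, hY2⟩ := hY
        rw [hstep X] at hY1 hY2
        have hc2 : ((edges N \ (M ∪ B)) \ X).card = (edges N \ (M ∪ B)).card - m := by
          rw [Finset.card_sdiff_of_subset hXU, hXc]
        have hYc : Y.card = b := by
          rw [hY2, hc2]
          exact min_eq_left (by omega)
        have hnew := hX Y hY1 hYc
        apply ih (M ∪ X) (B ∪ Y) (brk F' Y)
        · rw [Finset.disjoint_left]
          intro e he heB
          rcases Finset.mem_union.1 he with h | h <;> rcases Finset.mem_union.1 heB with h' | h'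
          · exact Finset.disjoint_left.1 hMB h h'
          · have := hY1 h'
            simp only [mem_sdiff, mem_union, not_or] at this
            exact this.1.2.1 h
          · have := hXU h
            simp only [mem_sdiff, mem_union, not_or] at this
            exact this.2.2 h'
          · have := hY1 h'
            simp only [mem_sdiff, mem_union, not_or] at this
            exact this.2 h
        · have hsub : edges N \ (M ∪ X ∪ (B ∪ Y)) ⊆ (edges N \ (M ∪ B)) \ X := by
            intro a ha
            simp only [mem_sdiff, mem_union, not_or] at ha ⊢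
            tauto
          have h1 := Finset.card_le_card hsub
          omega
        · intro A hA
          exact hSt.1 A (brk_subset F' Y hA)
        · intro A hA
          rw [Finset.disjoint_union_left]
          exact ⟨hB A (hF' (brk_subset F' Y hA)), (Finset.mem_filter.1 hA).2⟩
        · have hcast : ((n + 1 : ℕ) : ℝ) * lossT P m b = n * lossT P m b + lossT P m b := by
            push_cast
            ring
          rw [hcast] at hL
          linarith
    · obtain ⟨X, hX, _⟩ := exists_legal (edges N) M B m ∅ (by simp) (by simp)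
      refine ⟨X, hX, fun Y hY => ?_⟩
      obtain ⟨hX1, hX2⟩ := hX
      obtain ⟨hY1, hY2⟩ := hY
      rw [hstep X] at hY1 hY2
      have hc2 : ((edges N \ (M ∪ B)) \ X).card =
          (edges N \ (M ∪ B)).card - X.card := Finset.card_sdiff_of_subset hX1
      have hYall : Y = (edges N \ (M ∪ B)) \ X := by
        refine Finset.eq_of_subset_of_card_le hY1 ?_
        rw [hY2]
        refine le_min ?_ le_rfl
        rw [hc2, hX2]
        rcases le_total m (edges N \ (M ∪ B)).card with h | h
        · rw [min_eq_left h]
          omega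
        · rw [min_eq_right h]
          omega
      have hYb : Y.card ≤ b := by
        rw [hY2]
        exact min_le_left _ _
      have hSt4 : St P 4 M F' := ⟨hSt.1, fun A hA => (hSt.2 A hA).trans (by norm_num)⟩
      have hL' : b * P.cap 2 < LL P M F' := by
        have h1 : (0 : ℝ) ≤ ((n + 1 : ℕ) : ℝ) * lossT P m b := by positivity
        linarith
      obtain ⟨A, hA⟩ := last_turn hP hSt4 hL'
        (hY1.trans (Finset.sdiff_subset.trans hUE)) hYb
      have hfull : edges N ⊆ M ∪ X ∪ (B ∪ Y) := by
        intro e he
        by_cases h1 : e ∈ M ∪ X ∪ B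
        · simp only [mem_union] at h1 ⊢
          tauto
        · have h2 : e ∈ edges N \ (M ∪ X ∪ B) := Finset.mem_sdiff.2 ⟨he, h1⟩
          rw [hstep X, ← hYall] at h2
          exact Finset.mem_union_right _ (Finset.mem_union_right _ h2)
      have hcl : HasClique N P.q (M ∪ X) := by
        refine hasClique_of_full (hSt.1 A (brk_subset F' Y hA)) (B := B ∪ Y) ?_ hfull
        rw [Finset.disjoint_union_left]
        exact ⟨hB A (hF' (brk_subset F' Y hA)), (Finset.mem_filter.1 hA).2⟩
      exact forces_of_W (fun M M' h hM => HasClique.mono_set M M' h hM) n _ _ hcl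

/-- Maker wins if the potential is large at the start. -/
theorem makerWins_of_LL {P : Par} (hP : P.Good) {m b : ℕ} (hm : 1 ≤ m)
    (hβ : P.β = 1 + (b : ℝ) / m) (hν : 2 * Real.exp (m * P.ν) ≤ 4)
    (hL : (edges N).card * lossT P m b + b * P.cap 2 <
      LL P ∅ (powersetCard P.q (univ : Finset (Fin N)))) :
    MakerWins N m b P.q := by
  unfold MakerWins
  refine forces_of_inv hP hm hβ hν _ ∅ ∅ (powersetCard P.q univ) (Finset.disjoint_empty_left _)
    (Finset.card_le_card Finset.sdiff_subset) (fun A hA => (Finset.mem_powersetCard.1 hA).2)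
    (fun A _ => Finset.disjoint_empty_left _) hL

end Pool.Agent.Helper78.CG
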