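import Pool.Agent.Helper78.CG.Defs

set_option autoImplicit false

namespace Pool.Agent.Helper78.CG

open Finset Pool.Agent.Helper25.CliqueGame

/-- `C(N-k, q-k) / C(N, q) ≤ (q/N)^k`.  Proof: induction on `k`
(`Nat.succ_mul_choose_eq`: `(n+1) C(n,j) = C(n+1,j+1) (j+1)`, and `(q-k)/(N-k) ≤ q/N`). -/
theorem choose_ratio {N q k : ℕ} (hk : k ≤ q) (hq : q ≤ N) (hN : 0 < N) :
    (((N - k).choose (q - k) : ℕ) : ℝ) ≤ (N.choose q : ℝ) * ((q : ℝ) / N) ^ k := by
  induction k with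
  | zero => simp
  | succ k ih =>
    have hk' : k ≤ q := Nat.le_of_succ_le hk
    have ih' := ih hk'
    have hN' : (0 : ℝ) < N := by exact_mod_cast hN
    obtain ⟨n, hn⟩ : ∃ n, N - k = n + 1 := ⟨N - k - 1, by omega⟩
    obtain ⟨j, hj⟩ : ∃ j, q - k = j + 1 := ⟨q - k - 1, by omega⟩
    have hn' : N - (k + 1) = n := by omega
    have hj' : q - (k + 1) = j := by omega
    rw [hn', hj']
    rw [hn, hj] at ih'
    have hmul : (n + 1) * n.choose j = (n + 1).choose (j + 1) * (j + 1) :=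
      Nat.add_one_mul_choose_eq n j
    have hmulR : ((n : ℝ) + 1) * (n.choose j : ℝ) = ((n + 1).choose (j + 1) : ℝ) * ((j : ℝ) + 1) := by
      exact_mod_cast hmul
    have hn1 : (0 : ℝ) < (n : ℝ) + 1 := by positivity
    have hNn : (N : ℝ) = n + 1 + k := by
      have : N = n + 1 + k := by omega
      exact_mod_cast this
    have hqj : (q : ℝ) = j + 1 + k := by
      have : q = j + 1 + k := by omega
      exact_mod_cast this
    have hjn : (j : ℝ) ≤ n := by
      have : j ≤ n := by omega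
      exact_mod_cast this
    have hfrac : ((j : ℝ) + 1) / (n + 1) ≤ (q : ℝ) / N := by
      rw [div_le_div_iff₀ hn1 hN', hNn, hqj]
      have hk0 : (0 : ℝ) ≤ k := Nat.cast_nonneg k
      nlinarith
    have hq0 : (0 : ℝ) ≤ (q : ℝ) / N := by positivity
    calc (n.choose j : ℝ) = ((n + 1).choose (j + 1) : ℝ) * (((j : ℝ) + 1) / (n + 1)) := by
          rw [← mul_div_assoc, eq_div_iff hn1.ne', ← hmulR]; ring
      _ ≤ ((n + 1).choose (j + 1) : ℝ) * ((q : ℝ) / N) :=
          mul_le_mul_of_nonneg_left hfrac (Nat.cast_nonneg _)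
      _ ≤ ((N.choose q : ℝ) * ((q : ℝ) / N) ^ k) * ((q : ℝ) / N) :=
          mul_le_mul_of_nonneg_right ih' hq0
      _ = (N.choose q : ℝ) * ((q : ℝ) / N) ^ (k + 1) := by rw [pow_succ]; ring

/-- Lower bound for binomial coefficients.  Proof: `Nat.pow_le_choose`:
`(N+1-q)^q ≤ q! C(N,q)`, `N + 1 - q ≥ N / 2`, `q! ≤ q^q` (`Nat.factorial_le_pow`). -/
theorem choose_lower {N q : ℕ} (hq : 1 ≤ q) (hqN : 2 * q ≤ N) :
    ((N : ℝ) / (2 * q)) ^ q ≤ (N.choose q : ℝ) := by
  have hq0 : (0 : ℝ) < q := by exact_mod_cast hq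
  have h1 : (((N + 1 - q : ℕ) : ℝ)) ^ q ≤ (Nat.factorial q : ℝ) * (N.choose q : ℝ) := by
    have h := Nat.pow_le_choose (α := ℝ) q N
    have hf : (0 : ℝ) < (Nat.factorial q : ℝ) := by exact_mod_cast Nat.factorial_pos q
    rw [div_le_iff₀ hf] at h
    linarith
  have h2 : (Nat.factorial q : ℝ) ≤ (q : ℝ) ^ q := by exact_mod_cast Nat.factorial_le_pow q
  have h3 : (N : ℝ) / 2 ≤ ((N + 1 - q : ℕ) : ℝ) := by
    have h4 : N ≤ 2 * (N + 1 - q) := by omega
    have h5 : (N : ℝ) ≤ 2 * ((N + 1 - q : ℕ) : ℝ) := by exact_mod_cast h4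
    linarith
  have hqq : (0 : ℝ) < (q : ℝ) ^ q := pow_pos hq0 q
  have h6 : (N : ℝ) / (2 * q) = ((N : ℝ) / 2) / q := by
    field_simp
  rw [h6, div_pow, div_le_iff₀ hqq]
  have h7 : ((N : ℝ) / 2) ^ q ≤ (((N + 1 - q : ℕ) : ℝ)) ^ q :=
    pow_le_pow_left₀ (by positivity) h3 q
  have h8 : (Nat.factorial q : ℝ) * (N.choose q : ℝ) ≤ (q : ℝ) ^ q * (N.choose q : ℝ) :=
    mul_le_mul_of_nonneg_right h2 (Nat.cast_nonneg _)
  linarith

/-- The number of vertex sets of size less than `q`.  Proof: at most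
`∑_{k < q} C(N,k) ≤ ∑_{k < q} N^k ≤ N^q` for `N ≥ 2` (`Finset.card_eq_sum_card_fiberwise` or
`card_biUnion_le`, `Nat.choose_le_pow`, `geom_sum`). -/
theorem card_WW {N : ℕ} (hN : 2 ≤ N) (P : Par) : ((WW N P).card : ℝ) ≤ (N : ℝ) ^ P.q := by
  have h : (WW N P).card ≤ N ^ P.q := by
    have hsub : WW N P ⊆ (Finset.range P.q).biUnion
        (fun k => Finset.powersetCard k (Finset.univ : Finset (Fin N))) := by
      intro W hW
      have hW2 : 2 ≤ W.card ∧ W.card < P.q := by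
        simpa [WW] using hW
      rw [Finset.mem_biUnion]
      exact ⟨W.card, Finset.mem_range.2 hW2.2,
        Finset.mem_powersetCard.2 ⟨Finset.subset_univ W, rfl⟩⟩
    calc (WW N P).card ≤ ((Finset.range P.q).biUnion
        (fun k => Finset.powersetCard k (Finset.univ : Finset (Fin N)))).card :=
          Finset.card_le_card hsub
      _ ≤ ∑ k ∈ Finset.range P.q,
          (Finset.powersetCard k (Finset.univ : Finset (Fin N))).card := Finset.card_biUnion_le
      _ ≤ ∑ k ∈ Finset.range P.q, N ^ k := by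
          apply Finset.sum_le_sum
          intro k _
          rw [Finset.card_powersetCard, Finset.card_univ, Fintype.card_fin]
          exact Nat.choose_le_pow N k
      _ ≤ N ^ P.q := (Nat.geomSum_lt hN (fun k hk => Finset.mem_range.1 hk)).le
  exact_mod_cast h

end Pool.Agent.Helper78.CG
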