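import Pool.Agent.Helper78.CG.Basic
import Pool.Agent.Helper78.CG.InitChoose

set_option autoImplicit false

namespace Pool.Agent.Helper78.CG

open Finset Pool.Agent.Helper25.CliqueGame

theorem card_EI_eq {N : ℕ} (W : Finset (Fin N)) : (EI W).card = W.card.choose 2 :=
  card_clique_edges W

theorem wt_empty_eq {N : ℕ} (β : ℝ) (A : Finset (Fin N)) :
    wt β ∅ ∅ A = β⁻¹ ^ (A.card.choose 2) := by
  unfold wt
  rw [EI_empty, Finset.sdiff_empty, Finset.sdiff_empty, card_EI_eq]

/-- The total weight at the start.  Proof: `card_clique_edges`, `EI_empty`. -/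
theorem tt_init_total {N : ℕ} (β : ℝ) (q : ℕ) :
    tt β ∅ (powersetCard q (univ : Finset (Fin N))) ∅ ∅ = N.choose q * β⁻¹ ^ (q.choose 2) := by
  unfold tt
  have hfil : (powersetCard q (univ : Finset (Fin N))).filter
      (fun A => ∅ ⊆ A ∧ ∅ ⊆ EI A) = powersetCard q (univ : Finset (Fin N)) := by
    apply Finset.filter_true_of_mem
    intro A _
    exact ⟨Finset.empty_subset _, Finset.empty_subset _⟩
  rw [hfil]
  have h : ∀ A ∈ powersetCard q (univ : Finset (Fin N)), wt β ∅ ∅ A = β⁻¹ ^ (q.choose 2) := by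
    intro A hA
    rw [wt_empty_eq, (Finset.mem_powersetCard.1 hA).2]
  rw [Finset.sum_congr rfl h, Finset.sum_const, Finset.card_powersetCard, nsmul_eq_mul,
    Finset.card_univ, Fintype.card_fin]

/-- The weights at the start.
Proof: all `A ⊇ W` with `q` elements have weight `β^(-(C(q,2) - C(k,2)))` (`card_clique_edges`,
`wt_eq`), their number is `C(N-k, q-k)` (`A ↦ A \ W`), and `choose_ratio`. -/
theorem tt_init {N : ℕ} {β : ℝ} (hβ : 0 < β) {q : ℕ} (hq : q ≤ N) (hN : 0 < N)
    {W : Finset (Fin N)} (hW : W.card ≤ q) :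
    tt β ∅ (powersetCard q (univ : Finset (Fin N))) W ∅ ≤
      (N.choose q * β⁻¹ ^ (q.choose 2)) * β ^ (W.card.choose 2) * ((q : ℝ) / N) ^ W.card := by
  unfold tt
  have h : ∀ A ∈ (powersetCard q (univ : Finset (Fin N))).filter (fun A => W ⊆ A ∧ ∅ ⊆ EI A),
      wt β ∅ W A = β⁻¹ ^ (q.choose 2) * β ^ (W.card.choose 2) := by
    intro A hA
    have h1 := Finset.mem_filter.1 hA
    rw [wt_eq hβ ∅ h1.2.1, wt_empty_eq, (Finset.mem_powersetCard.1 h1.1).2, Finset.sdiff_empty,
      card_EI_eq]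
  rw [Finset.sum_congr rfl h, Finset.sum_const, nsmul_eq_mul]
  have hcard : ((powersetCard q (univ : Finset (Fin N))).filter
      (fun A => W ⊆ A ∧ ∅ ⊆ EI A)).card ≤ (N - W.card).choose (q - W.card) := by
    have h1 : (powersetCard (q - W.card) ((univ : Finset (Fin N)) \ W)).card =
        (N - W.card).choose (q - W.card) := by
      rw [Finset.card_powersetCard, Finset.card_sdiff_of_subset (Finset.subset_univ W),
        Finset.card_univ, Fintype.card_fin]
    rw [← h1]
    apply Finset.card_le_card_of_injOn (fun A => A \ W)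
    · intro A hA
      have h2 := Finset.mem_filter.1 (Finset.mem_coe.1 hA)
      apply Finset.mem_coe.2
      rw [Finset.mem_powersetCard]
      refine ⟨Finset.sdiff_subset_sdiff (Finset.subset_univ A) (Finset.Subset.refl _), ?_⟩
      rw [Finset.card_sdiff_of_subset h2.2.1, (Finset.mem_powersetCard.1 h2.1).2]
    · intro A hA B hB hAB
      have h2 := Finset.mem_filter.1 (Finset.mem_coe.1 hA)
      have h3 := Finset.mem_filter.1 (Finset.mem_coe.1 hB)
      have hAB' : A \ W = B \ W := hAB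
      rw [← Finset.sdiff_union_of_subset h2.2.1, ← Finset.sdiff_union_of_subset h3.2.1, hAB']
  have hratio := choose_ratio hW hq hN
  have hc : (((powersetCard q (univ : Finset (Fin N))).filter
      (fun A => W ⊆ A ∧ ∅ ⊆ EI A)).card : ℝ) ≤ (N.choose q : ℝ) * ((q : ℝ) / N) ^ W.card :=
    (by exact_mod_cast hcard : _ ≤ (((N - W.card).choose (q - W.card) : ℕ) : ℝ)).trans hratio
  have hpos : 0 ≤ β⁻¹ ^ (q.choose 2) * β ^ (W.card.choose 2) := by positivity
  calc _ ≤ ((N.choose q : ℝ) * ((q : ℝ) / N) ^ W.card) *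
        (β⁻¹ ^ (q.choose 2) * β ^ (W.card.choose 2)) := mul_le_mul_of_nonneg_right hc hpos
    _ = _ := by ring

end Pool.Agent.Helper78.CG
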