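import Pool.Agent.Helper78.CG.Caps

set_option autoImplicit false

namespace Pool.Agent.Helper78.CG

open Finset Pool.Agent.Helper25.CliqueGame

variable {N : ℕ}

/-- Breaker's moves do not increase the dangers.  Proof: `cf_mono_F`, `brk_subset`. -/
theorem St_brk {P : Par} (hP : P.Good) {c : ℝ} {M : Finset (Sym2 (Fin N))}
    {F : Finset (Finset (Fin N))} (h : St P c M F) (Y : Finset (Sym2 (Fin N))) :
    St P c M (brk F Y) := by
  refine ⟨fun A hA => h.1 A (brk_subset F Y hA), fun A hA => ?_⟩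
  refine le_trans ?_ (h.2 A (brk_subset F Y hA))
  unfold Om
  apply Finset.sum_le_sum
  intro W _
  exact mul_le_mul_of_nonneg_right (cf_mono_F hP M (brk_subset F Y) W)
    (pow_nonneg hP.β_pos.le _)

/-- Breaker claims `y`: the potential.
Proof: `tt ∅ ∅` drops by `tt ∅ {y}` (`tt_brk`).  For `W ∈ WW` the number `tt W ∅` drops by
`tt W {y} ≥ 0`; if `y ∉ EI W` then `z = th * tt W {y} ≤ th * cap (k+1) ≤ ν ≤ 1` (`nu_th` and
`1 ≤ β`) and `exp (-z) ≤ 1 - z + z^2 ≤ 1 - (1-ν) z`, so the term of `SS` drops by at least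
`(1-ν) cf W * tt W {y}`.  Sum: `SS' ≤ SS - (1-ν) RR y`, and `RR y ≤ 4 cap 2`. -/
theorem LL_breaker {P : Par} (hP : P.Good) {M : Finset (Sym2 (Fin N))}
    {F : Finset (Finset (Fin N))} (h : St P 4 M F) {y : Sym2 (Fin N)} (hy : y ∈ edges N) :
    LL P M F - VV P M F y - 4 * P.ν * P.cap 2 ≤ LL P M (brk F {y}) := by
  have hexp : ∀ z : ℝ, 0 ≤ z → z ≤ P.ν → Real.exp (-z) ≤ 1 - (1 - P.ν) * z := by
    intro z hz0 hz1
    have h1 : |-z| ≤ 1 := by
      rw [abs_neg, abs_of_nonneg hz0]
      exact hz1.trans hP.hν1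
    have h2 := (abs_le.1 (Real.abs_exp_sub_one_sub_id_le h1)).2
    nlinarith
  have hterm : ∀ W ∈ WW N P, P.lam W.card * Real.exp (P.th W.card * tt P.β M (brk F {y}) W ∅) ≤
      P.lam W.card * Real.exp (P.th W.card * tt P.β M F W ∅) -
        (if y ∉ EI W then (1 - P.ν) * (cf P M F W * tt P.β M F W {y}) else 0) := by
    intro W hW
    have hW' := (Finset.mem_filter.1 hW).2
    have hb : tt P.β M (brk F {y}) W ∅ = tt P.β M F W ∅ - tt P.β M F W {y} := by
      rw [tt_brk, insert_empty_eq]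
    have hnn : 0 ≤ tt P.β M F W {y} := tt_nonneg hP.β_pos M F W _
    have hth := hP.th_pos W.card
    have hlam := hP.lam_pos W.card
    have he : Real.exp (P.th W.card * tt P.β M (brk F {y}) W ∅) =
        Real.exp (P.th W.card * tt P.β M F W ∅) * Real.exp (-(P.th W.card * tt P.β M F W {y})) := by
      rw [hb, ← Real.exp_add]
      congr 1
      ring
    have hz0 : 0 ≤ P.th W.card * tt P.β M F W {y} := mul_nonneg hth.le hnn
    have hEp := Real.exp_pos (P.th W.card * tt P.β M F W ∅)
    rw [he]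
    by_cases hyW : y ∉ EI W
    · rw [if_pos hyW]
      have hz1 : P.th W.card * tt P.β M F W {y} ≤ P.ν := by
        refine le_trans ?_ (hP.nu_th W.card hW'.1 hW'.2)
        apply mul_le_mul_of_nonneg_left _ hth.le
        have h1 := tt_jump_cap hP h hW'.1 hy hyW
        have h2 := hP.cap_nonneg (W.card + 1)
        have h3 := hP.hβ
        nlinarith
      have h4 := hexp _ hz0 hz1
      have h5 : P.lam W.card * (Real.exp (P.th W.card * tt P.β M F W ∅) *
          Real.exp (-(P.th W.card * tt P.β M F W {y}))) ≤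
          P.lam W.card * (Real.exp (P.th W.card * tt P.β M F W ∅) *
            (1 - (1 - P.ν) * (P.th W.card * tt P.β M F W {y}))) := by
        apply mul_le_mul_of_nonneg_left _ hlam.le
        exact mul_le_mul_of_nonneg_left h4 hEp.le
      refine h5.trans (le_of_eq ?_)
      unfold cf
      ring
    · rw [if_neg hyW, sub_zero]
      apply mul_le_mul_of_nonneg_left _ hlam.le
      have h6 : Real.exp (-(P.th W.card * tt P.β M F W {y})) ≤ 1 := by
        apply Real.exp_le_one_iff.2
        linarith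
      nlinarith
  have hSS : SS P M (brk F {y}) ≤ SS P M F - (1 - P.ν) * RR P M F y := by
    unfold SS RR
    refine le_trans (Finset.sum_le_sum hterm) (le_of_eq ?_)
    rw [Finset.sum_sub_distrib, Finset.mul_sum, Finset.sum_filter]
  have hRR := RR_le hP h hy
  have hT : tt P.β M (brk F {y}) ∅ ∅ = tt P.β M F ∅ ∅ - tt P.β M F ∅ {y} := by
    rw [tt_brk, insert_empty_eq]
  have hν := hP.hν0
  have h7 : P.ν * RR P M F y ≤ P.ν * (4 * P.cap 2) := mul_le_mul_of_nonneg_left hRR hν
  unfold LL VV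
  rw [hT]
  nlinarith

end Pool.Agent.Helper78.CG
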