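import Pool.Agent.Helper78.CG.Caps

set_option autoImplicit false

namespace Pool.Agent.Helper78.CG

open Finset Pool.Agent.Helper25.CliqueGame

variable {N : ℕ}

/-- The increase of the penalty when Maker claims `x`. -/
theorem SS_maker {P : Par} (hP : P.Good) {M : Finset (Sym2 (Fin N))}
    {F : Finset (Finset (Fin N))} (h : St P 4 M F) {x : Sym2 (Fin N)} (hx : x ∈ edges N)
    (hxM : x ∉ M) :
    SS P (insert x M) F ≤ SS P M F + (1 + P.ν) * (P.β - 1) * RR P M F x := by
  unfold SS RR
  rw [Finset.mul_sum, Finset.sum_filter, ← Finset.sum_add_distrib]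
  apply Finset.sum_le_sum
  intro W hW
  have hW2 : 2 ≤ W.card ∧ W.card < P.q := (Finset.mem_filter.1 hW).2
  by_cases hxW : x ∈ EI W
  · rw [tt_insert_M_of_mem P.β M F ∅ hxW]
    simp [hxW]
  · rw [if_pos hxW, tt_insert_M hP.β_pos F ∅ hxM hxW]
    have hins : insert x (∅ : Finset (Sym2 (Fin N))) = {x} := by
      ext y
      simp
    rw [hins]
    unfold cf
    set t := tt P.β M F W ∅ with ht
    set s := tt P.β M F W {x} with hs
    set th := P.th W.card with hth
    have hthpos : 0 < th := hP.th_pos _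
    have hlam : 0 < P.lam W.card := hP.lam_pos _
    have hs0 : 0 ≤ s := tt_nonneg hP.β_pos M F W _
    have hscap : s ≤ P.cap (W.card + 1) := tt_jump_cap hP h hW2.1 hx hxW
    have hβ := hP.hβ
    have hν0 := hP.hν0
    have hν1 := hP.hν1
    have hz0 : 0 ≤ th * ((P.β - 1) * s) :=
      mul_nonneg hthpos.le (mul_nonneg (by linarith) hs0)
    have hz1 : th * ((P.β - 1) * s) ≤ P.ν := by
      refine le_trans ?_ (hP.nu_th W.card hW2.1 hW2.2)
      apply mul_le_mul_of_nonneg_left _ hthpos.le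
      exact mul_le_mul (by linarith) hscap hs0 (by linarith)
    set z := th * ((P.β - 1) * s) with hz
    have hexp : Real.exp z ≤ 1 + (1 + P.ν) * z := by
      have habs : |z| ≤ 1 := by
        rw [abs_of_nonneg hz0]
        exact hz1.trans hν1
      have h1 := Real.abs_exp_sub_one_sub_id_le habs
      have h2 := (abs_le.1 h1).2
      have h3 : z ^ 2 ≤ P.ν * z := by
        rw [pow_two]
        exact mul_le_mul_of_nonneg_right hz1 hz0
      linarith
    have hsplit : Real.exp (th * (t + (P.β - 1) * s)) = Real.exp (th * t) * Real.exp z := by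
      rw [hz, ← Real.exp_add]
      congr 1
      ring
    rw [hsplit]
    have he : 0 < Real.exp (th * t) := Real.exp_pos _
    have h4 : P.lam W.card * (Real.exp (th * t) * Real.exp z)
        ≤ P.lam W.card * (Real.exp (th * t) * (1 + (1 + P.ν) * z)) := by
      apply mul_le_mul_of_nonneg_left _ hlam.le
      exact mul_le_mul_of_nonneg_left hexp he.le
    refine h4.trans (le_of_eq ?_)
    rw [hz]
    ring

/-- Maker claims `x`: the potential.
Proof: `tt` for `∅` changes by `(β-1) tt ∅ {x}` (`tt_insert_M`, `EI_empty`).  For `W ∈ WW` with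
`x ∈ EI W` the term of `SS` does not change; for `x ∉ EI W`, with `z = th * (β-1) * tt W {x}`,
`0 ≤ z ≤ ν ≤ 1` (`tt_jump_cap`, `nu_th`), `exp z ≤ 1 + z + z^2 ≤ 1 + (1+ν) z`, so the term grows by
at most `(1+ν) (β-1) cf W * tt W {x}`.  Sum: `SS' ≤ SS + (1+ν)(β-1) RR x`, and `RR x ≤ 4 cap 2`. -/
theorem LL_maker {P : Par} (hP : P.Good) {M : Finset (Sym2 (Fin N))}
    {F : Finset (Finset (Fin N))} (h : St P 4 M F) {x : Sym2 (Fin N)} (hx : x ∈ edges N)
    (hxM : x ∉ M) :
    LL P M F + (P.β - 1) * VV P M F x - (P.β - 1) * (4 * P.ν * P.cap 2) ≤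
      LL P (insert x M) F := by
  have h1 := SS_maker hP h hx hxM
  have hxE : x ∉ EI (∅ : Finset (Fin N)) := by
    rw [EI_empty]
    exact Finset.notMem_empty _
  have h2 := tt_insert_M hP.β_pos F (∅ : Finset (Sym2 (Fin N))) hxM hxE
  have hins : insert x (∅ : Finset (Sym2 (Fin N))) = {x} := by
    ext y
    simp
  rw [hins] at h2
  have h3 : RR P M F x ≤ 4 * P.cap 2 := RR_le hP h hx
  have hβ := hP.hβ
  have hν0 := hP.hν0
  unfold LL VV
  rw [h2]
  have h4 : P.ν * (P.β - 1) * RR P M F x ≤ P.ν * (P.β - 1) * (4 * P.cap 2) :=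
    mul_le_mul_of_nonneg_left h3 (mul_nonneg hν0 (by linarith))
  nlinarith [h1, h4]

end Pool.Agent.Helper78.CG
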