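import Pool.Agent.Helper78.CG.Caps

set_option autoImplicit false

namespace Pool.Agent.Helper78.CG

open Finset Pool.Agent.Helper25.CliqueGame

variable {N : ℕ}

/-- Maker claims `x`: the dangers.
Proof: termwise: `tt` grows by at most `(β-1) cap (k+1)` (`tt_insert_M`, `tt_insert_M_of_mem`,
`tt_jump_cap`), so by `nu_th` the exponential grows by a factor at most `exp ν`;
`|EI W \ insert x M| ≤ |EI W \ M|`. -/
theorem Om_maker {P : Par} (hP : P.Good) {M : Finset (Sym2 (Fin N))}
    {F : Finset (Finset (Fin N))} (h : St P 4 M F) {x : Sym2 (Fin N)} (hx : x ∈ edges N)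
    (hxM : x ∉ M) (A : Finset (Fin N)) :
    Om P (insert x M) F A ≤ Real.exp P.ν * Om P M F A := by
  have hβ0 : 0 < P.β := hP.β_pos
  have hcf : ∀ W ∈ WW N P, cf P (insert x M) F W ≤ Real.exp P.ν * cf P M F W := by
    intro W hW
    have hW2 : 2 ≤ W.card ∧ W.card < P.q := by
      simpa [WW] using hW
    have hth : 0 < P.th W.card := hP.th_pos _
    have hlt : 0 ≤ P.lam W.card * P.th W.card := mul_nonneg (hP.lam_pos _).le hth.le
    have hkey : P.th W.card * tt P.β (insert x M) F W ∅ ≤ P.ν + P.th W.card * tt P.β M F W ∅ := by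
      by_cases hxW : x ∈ EI W
      · rw [tt_insert_M_of_mem P.β M F ∅ hxW]
        linarith [hP.hν0]
      · rw [tt_insert_M hβ0 F ∅ hxM hxW, insert_empty_eq]
        have h1 : tt P.β M F W {x} ≤ P.cap (W.card + 1) := tt_jump_cap hP h hW2.1 hx hxW
        have h2 := hP.nu_th W.card hW2.1 hW2.2
        have h3 : (P.β - 1) * tt P.β M F W {x} ≤ P.β * P.cap (W.card + 1) := by
          have h4 : 0 ≤ tt P.β M F W {x} := tt_nonneg hβ0 M F W {x}
          nlinarith [hP.hβ]
        have h5 := mul_le_mul_of_nonneg_left h3 hth.le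
        nlinarith
    unfold cf
    calc P.lam W.card * P.th W.card * Real.exp (P.th W.card * tt P.β (insert x M) F W ∅)
        ≤ P.lam W.card * P.th W.card * Real.exp (P.ν + P.th W.card * tt P.β M F W ∅) :=
          mul_le_mul_of_nonneg_left (Real.exp_le_exp.2 hkey) hlt
      _ = Real.exp P.ν * (P.lam W.card * P.th W.card *
            Real.exp (P.th W.card * tt P.β M F W ∅)) := by
          rw [Real.exp_add]; ring
  unfold Om
  rw [Finset.mul_sum]
  apply Finset.sum_le_sum
  intro W hW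
  have hWW : W ∈ WW N P := (Finset.mem_filter.1 hW).1
  have hpow : P.β ^ (EI W \ insert x M).card ≤ P.β ^ (EI W \ M).card := by
    apply pow_le_pow_right₀ hP.hβ
    apply Finset.card_le_card
    exact Finset.sdiff_subset_sdiff (Finset.Subset.refl _) (Finset.subset_insert x M)
  calc cf P (insert x M) F W * P.β ^ (EI W \ insert x M).card
      ≤ (Real.exp P.ν * cf P M F W) * P.β ^ (EI W \ M).card := by
        apply mul_le_mul (hcf W hWW) hpow (pow_nonneg hβ0.le _)
        exact mul_nonneg (Real.exp_pos _).le (cf_nonneg hP M F W)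
    _ = Real.exp P.ν * (cf P M F W * P.β ^ (EI W \ M).card) := by ring

/-- Maker claims `x`: the value of another edge `e`.
Proof: `tt ∅ {e}` grows by `(β-1) tt ∅ {x, e} ≤ (β-1) cap 3`, and `RR` does not decrease
(`cf_mono_M`, `tt_mono_M`). -/
theorem VV_maker {P : Par} (hP : P.Good) {M : Finset (Sym2 (Fin N))}
    {F : Finset (Finset (Fin N))} (h : St P 4 M F) {x e : Sym2 (Fin N)} (hx : x ∈ edges N)
    (hxM : x ∉ M) (he : e ∈ edges N) (hne : e ≠ x) :
    VV P (insert x M) F e ≤ VV P M F e + kap P := by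
  have hβ0 : 0 < P.β := hP.β_pos
  have hxE : x ∉ EI (∅ : Finset (Fin N)) := by
    rw [EI_empty]; exact Finset.notMem_empty x
  have h1 : tt P.β (insert x M) F ∅ {e} =
      tt P.β M F ∅ {e} + (P.β - 1) * tt P.β M F ∅ {x, e} := tt_insert_M hβ0 F {e} hxM hxE
  have h2 : tt P.β M F ∅ {x, e} ≤ P.cap 3 := T2_le hP h hx he (Ne.symm hne)
  have h3 : 0 ≤ tt P.β M F ∅ {x, e} := tt_nonneg hβ0 M F ∅ {x, e}
  have h4 : RR P M F e ≤ RR P (insert x M) F e := by
    unfold RR
    apply Finset.sum_le_sum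
    intro W _
    apply mul_le_mul (cf_mono_M hP (Finset.subset_insert x M) F W)
      (tt_mono_M hP.hβ (Finset.subset_insert x M) F W {e}) (tt_nonneg hβ0 M F W {e})
      (cf_nonneg hP _ F W)
  have h5 : (P.β - 1) * tt P.β M F ∅ {x, e} ≤ kap P := by
    have h6 : 0 ≤ P.cap 3 := hP.cap_nonneg 3
    have h7 : 0 ≤ P.cap 2 := hP.cap_nonneg 2
    have h8 : 0 ≤ P.ν * P.cap 2 := mul_nonneg hP.hν0 h7
    have h9 : (P.β - 1) * tt P.β M F ∅ {x, e} ≤ (P.β - 1) * P.cap 3 :=
      mul_le_mul_of_nonneg_left h2 (by linarith [hP.hβ])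
    have h10 : 0 ≤ P.β * P.cap 3 := mul_nonneg hβ0.le h6
    unfold kap
    nlinarith
  unfold VV
  rw [h1]
  linarith

end Pool.Agent.Helper78.CG
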