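import Pool.Agent.Helper78.CG.LLMaker
import Pool.Agent.Helper78.CG.OVMaker

set_option autoImplicit false

namespace Pool.Agent.Helper78.CG

open Finset Pool.Agent.Helper25.CliqueGame

variable {N : ℕ}

/-- Maker's turn: he claims `i` edges one by one, each of maximal value.
Proof: induction on `i`.  Step: let `x ∈ U \ X` maximise `VV P (M ∪ X) F`
(`Finset.exists_max_image`; `U \ X` is nonempty because `i + 1 ≤ U.card`).  `St P 4 (M ∪ X) F`
holds because `2 exp (i ν) ≤ 2 exp (m ν) ≤ 4`.  New `X' = insert x X`, `v' = v + VV (M ∪ X) x`;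
use `LL_maker`, `Om_maker`, and for `z ∈ U \ X'` by `VV_maker`:
`(i+1) VV' z ≤ (i+1) (VV z + kap) = i VV z + VV z + (i+1) kap
  ≤ v + i^2 kap + VV x + (i+1) kap ≤ v' + (i+1)^2 kap` (`kap ≥ 0`). -/
theorem maker_turn {P : Par} (hP : P.Good) {M U : Finset (Sym2 (Fin N))}
    {F : Finset (Finset (Fin N))} (hU : U ⊆ edges N) (hUM : Disjoint U M) (h : St P 2 M F)
    {m : ℕ} (hν : 2 * Real.exp (m * P.ν) ≤ 4) (i : ℕ) (him : i ≤ m) (hi : i ≤ U.card) :
    ∃ X ⊆ U, X.card = i ∧ St P (2 * Real.exp (i * P.ν)) (M ∪ X) F ∧ ∃ v : ℝ,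
      LL P M F + (P.β - 1) * v - i * ((P.β - 1) * (4 * P.ν * P.cap 2)) ≤ LL P (M ∪ X) F ∧
      ∀ z ∈ U \ X, i * VV P (M ∪ X) F z ≤ v + i ^ 2 * kap P := by
  have hkap : 0 ≤ kap P := by
    unfold kap
    have h1 := hP.hν0
    have h2 := hP.cap_nonneg 2
    have h3 := hP.cap_nonneg 3
    have h4 := hP.β_pos
    positivity
  induction i with
  | zero =>
    refine ⟨∅, Finset.empty_subset _, rfl, ?_, 0, ?_, ?_⟩
    · simpa using h
    · simp
    · intro z _
      simp
  | succ i ih =>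
    obtain ⟨X, hXU, hXc, hSt, v, hLL, hv⟩ := ih (by omega) (by omega)
    have hne : (U \ X).Nonempty := by
      rw [← Finset.card_pos, Finset.card_sdiff_of_subset hXU]
      omega
    obtain ⟨x, hx, hmax⟩ := Finset.exists_max_image (U \ X) (VV P (M ∪ X) F) hne
    rw [Finset.mem_sdiff] at hx
    have hxM : x ∉ M ∪ X := by
      rw [Finset.mem_union, not_or]
      exact ⟨Finset.disjoint_left.1 hUM hx.1, hx.2⟩
    have hxe : x ∈ edges N := hU hx.1
    have hSt4 : St P 4 (M ∪ X) F := by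
      refine ⟨hSt.1, fun A hA => (hSt.2 A hA).trans (le_trans ?_ hν)⟩
      have h1 : (i : ℝ) * P.ν ≤ m * P.ν := by
        apply mul_le_mul_of_nonneg_right _ hP.hν0
        exact_mod_cast (by omega : i ≤ m)
      have h2 := Real.exp_le_exp.2 h1
      linarith
    have hun : M ∪ insert x X = insert x (M ∪ X) := by
      rw [Finset.union_insert]
    refine ⟨insert x X, ?_, ?_, ?_, v + VV P (M ∪ X) F x, ?_, ?_⟩
    · exact Finset.insert_subset hx.1 hXU
    · rw [Finset.card_insert_of_notMem hx.2, hXc]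
    · refine ⟨hSt.1, fun A hA => ?_⟩
      rw [hun]
      refine (Om_maker hP hSt4 hxe hxM A).trans ?_
      calc Real.exp P.ν * Om P (M ∪ X) F A ≤ Real.exp P.ν * (2 * Real.exp (i * P.ν)) :=
            mul_le_mul_of_nonneg_left (hSt.2 A hA) (Real.exp_pos _).le
        _ = 2 * Real.exp (((i + 1 : ℕ) : ℝ) * P.ν) := by
            have : ((i + 1 : ℕ) : ℝ) * P.ν = P.ν + i * P.ν := by push_cast; ring
            rw [this, Real.exp_add]
            ring
    · rw [hun]
      refine le_trans ?_ (LL_maker hP hSt4 hxe hxM)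
      push_cast
      linarith
    · intro z hz
      rw [Finset.mem_sdiff, Finset.mem_insert, not_or] at hz
      have hz' : z ∈ U \ X := Finset.mem_sdiff.2 ⟨hz.1, hz.2.2⟩
      have h1 := VV_maker hP hSt4 hxe hxM (hU hz.1) hz.2.1
      have h2 := hv z hz'
      have h3 := hmax z hz'
      rw [hun]
      push_cast
      have hi0 : (0 : ℝ) ≤ i := Nat.cast_nonneg i
      have h4 := mul_le_mul_of_nonneg_left h1 (by positivity : (0 : ℝ) ≤ i + 1)
      have h5 : 0 ≤ (i : ℝ) * kap P := by positivity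
      nlinarith

end Pool.Agent.Helper78.CG
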