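import Pool.Agent.Helper78.CG.Basic

set_option autoImplicit false

namespace Pool.Agent.Helper78.CG

open Finset Pool.Agent.Helper25.CliqueGame

/-- The parameters: `cap k = C R^(2-k)`, `th k = Λ / cap k`, `lam k = 4 cap k Λ⁻¹ e^(-Λ)`,
`ν = β Λ / R`. -/
noncomputable def mkPar (q : ℕ) (β R Λ C : ℝ) : Par where
  q := q
  β := β
  ν := β * Λ / R
  th := fun k => Λ / (C * R ^ 2 / R ^ k)
  lam := fun k => 4 * (C * R ^ 2 / R ^ k) / Λ * Real.exp (-Λ)
  cap := fun k => C * R ^ 2 / R ^ k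

/-- Proof: direct; `th k ≤ 1` for `k < q` because `cap k ≥ R * cap q ≥ R ≥ Λ`. -/
theorem mkPar_good {q : ℕ} {β R Λ C : ℝ} (hβ : 1 ≤ β) (hΛ : 0 < Λ)
    (hR : β * Λ ≤ R) (hR1 : 1 ≤ R) (hC : 0 < C) (hCq : 1 ≤ C * R ^ 2 / R ^ q) :
    (mkPar q β R Λ C).Good := by
  have hR0 : 0 < R := by linarith
  have hcap : ∀ k : ℕ, 0 < C * R ^ 2 / R ^ k := fun k => by positivity
  have hanti : ∀ k l : ℕ, k ≤ l → C * R ^ 2 / R ^ l ≤ C * R ^ 2 / R ^ k := by
    intro k l hkl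
    exact div_le_div_of_nonneg_left (by positivity) (by positivity) (pow_le_pow_right₀ hR1 hkl)
  have hsucc : ∀ k : ℕ, C * R ^ 2 / R ^ (k + 1) = C * R ^ 2 / R ^ k / R := by
    intro k
    rw [pow_succ R k, div_div]
  refine ⟨hβ, ?_, ?_, ?_, ?_, ?_, ?_, ?_, hCq, ?_, ?_⟩
  · show 0 ≤ β * Λ / R
    positivity
  · show β * Λ / R ≤ 1
    exact (div_le_one hR0).mpr hR
  · intro k
    show 0 < Λ / (C * R ^ 2 / R ^ k)
    exact div_pos hΛ (hcap k)
  · intro k _ hkq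
    show Λ / (C * R ^ 2 / R ^ k) ≤ 1
    rw [div_le_one (hcap k)]
    have h1 : 1 ≤ C * R ^ 2 / R ^ (k + 1) := hCq.trans (hanti (k + 1) q hkq)
    rw [hsucc k, one_le_div hR0] at h1
    have h2 : Λ ≤ β * Λ := by nlinarith
    linarith
  · intro k
    show 0 < 4 * (C * R ^ 2 / R ^ k) / Λ * Real.exp (-Λ)
    have := hcap k
    positivity
  · intro k l hkl
    exact hanti k l hkl
  · intro k
    exact (hcap k).le
  · intro k _ _
    show 4 * (C * R ^ 2 / R ^ k) / Λ * Real.exp (-Λ) * (Λ / (C * R ^ 2 / R ^ k)) *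
      Real.exp (Λ / (C * R ^ 2 / R ^ k) * (C * R ^ 2 / R ^ k)) = 4
    have h0 := (hcap k).ne'
    generalize C * R ^ 2 / R ^ k = c at h0
    rw [div_mul_cancel₀ _ h0, Real.exp_neg]
    have h1 := (Real.exp_pos Λ).ne'
    field_simp
  · intro k _ _
    show Λ / (C * R ^ 2 / R ^ k) * (β * (C * R ^ 2 / R ^ (k + 1))) ≤ β * Λ / R
    rw [hsucc k]
    have h0 := (hcap k).ne'
    generalize C * R ^ 2 / R ^ k = c at h0
    refine le_of_eq ?_
    field_simp

/-- The caps are twice the weights at the start.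
Proof: divide by `β T q² R² / (N² R^k) > 0`; the claim is `β^(C(k,2)-1) (q R / N)^(k-2) ≤ 1`;
its square is `(β^(k+1) (q R / N)^2)^(k-2)` because `2 C(k,2) - 2 = (k+1)(k-2)`, and
`β^(k+1) (q R / N)^2 ≤ β^q (q R)^2 / N^2 ≤ 1`.  (Induction on `k` is also possible: from `k` to
`k + 1` the left side is multiplied by `β^k q / N` and the right side by `1 / R`, and
`β^k q R / N ≤ 1`?  This holds only for `k ≤ q/2`, so better use the first proof.) -/
theorem cap_init {N q k : ℕ} (hN : 0 < N) (hk : 2 ≤ k) (hkq : k < q) {β R T : ℝ} (hβ : 1 ≤ β)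
    (hR : 1 ≤ R) (hT : 0 < T) (h1 : β ^ q * (q * R) ^ 2 ≤ (N : ℝ) ^ 2) :
    T * β ^ (k.choose 2) * ((q : ℝ) / N) ^ k ≤
      (2 * β * T * q ^ 2 / N ^ 2) * R ^ 2 / R ^ k / 2 := by
  obtain ⟨j, rfl⟩ : ∃ j, k = j + 2 := ⟨k - 2, by omega⟩
  have hN' : (0 : ℝ) < N := by exact_mod_cast hN
  have hR0 : 0 < R := by linarith
  have hβ0 : 0 < β := by linarith
  have h2c : 2 * (j + 2).choose 2 = (j + 3) * j + 2 := by
    rw [Nat.choose_two_right, Nat.mul_div_cancel' (Nat.even_mul_pred_self (j + 2)).two_dvd]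
    have : j + 2 - 1 = j + 1 := rfl
    rw [this]
    ring
  obtain ⟨c, hc⟩ : ∃ c, (j + 2).choose 2 = c + 1 := ⟨(j + 2).choose 2 - 1, by omega⟩
  have h2c' : 2 * c = (j + 3) * j := by omega
  set y : ℝ := (q : ℝ) * R / N with hy
  have hy0 : 0 ≤ y := by positivity
  have hx : β ^ c * y ^ j ≤ 1 := by
    have h3 : β ^ (j + 3) * y ^ 2 ≤ 1 := by
      have h4 : β ^ (j + 3) ≤ β ^ q := pow_le_pow_right₀ hβ (by omega)
      calc β ^ (j + 3) * y ^ 2 ≤ β ^ q * y ^ 2 :=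
            mul_le_mul_of_nonneg_right h4 (by positivity)
        _ = β ^ q * (q * R) ^ 2 / (N : ℝ) ^ 2 := by rw [hy, div_pow]; ring
        _ ≤ 1 := by rw [div_le_one (by positivity)]; exact h1
    have h5 : (β ^ c * y ^ j) ^ 2 ≤ 1 := by
      calc (β ^ c * y ^ j) ^ 2 = (β ^ (j + 3) * y ^ 2) ^ j := by
            rw [mul_pow, mul_pow, ← pow_mul, ← pow_mul, ← pow_mul, ← pow_mul, mul_comm c 2, h2c',
              mul_comm j 2]
        _ ≤ 1 := pow_le_one₀ (by positivity) h3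
    have h6 : 0 ≤ β ^ c * y ^ j := by positivity
    nlinarith
  have h7 : T * β ^ ((j + 2).choose 2) * ((q : ℝ) / N) ^ (j + 2) =
      (β * T * q ^ 2 / N ^ 2) / R ^ j * (β ^ c * y ^ j) := by
    rw [hc, hy]
    have hRj : R ^ j ≠ 0 := by positivity
    rw [div_pow, div_pow, mul_pow]
    field_simp
    ring
  have h8 : (2 * β * T * q ^ 2 / N ^ 2) * R ^ 2 / R ^ (j + 2) / 2 =
      (β * T * q ^ 2 / N ^ 2) / R ^ j := by
    have hRj : R ^ j ≠ 0 := by positivity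
    field_simp
    ring
  rw [h7, h8]
  have h9 : 0 ≤ (β * T * q ^ 2 / N ^ 2) / R ^ j := by positivity
  calc _ ≤ (β * T * q ^ 2 / N ^ 2) / R ^ j * 1 := mul_le_mul_of_nonneg_left hx h9
    _ = _ := mul_one _

end Pool.Agent.Helper78.CG
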