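import Pool.Agent.Helper78.CG.Params

set_option autoImplicit false

namespace Pool.Agent.Helper78.CG

open Finset Pool.Agent.Helper25.CliqueGame

open Filter

/-- The choice of `q`.  With `x = log N`, `l = log β`, `c0 = 256 β² b (m+b)`, `R = c0 q³ x`,
`C' = 2 log (32 c0 / l^4) + 4 l` (or larger), `q = ⌊(2 x - 10 log x - C') / l⌋`.  For large `N`:
`x / l ≤ q ≤ 2 x / l`, `2 q ≤ N`;
`h1`: `q l + 2 log (q R) ≤ 2 x - 10 log x - C' + 2 log (16 c0 x^5 / l^4) ≤ 2 x`;
`h2`: `log T ≥ q (x - log (2 q)) - q (q-1) l / 2` (`choose_lower`) and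
`x - (q-1) l / 2 ≥ 5 log x + C' / 2`, `log (2 q R) ≤ log (32 c0 x^5 / l^4)`, so
`log T - q log R ≥ q (5 log x + C'/2 - log (2 q R)) ≥ q * 2 l ≥ 2 x`. -/
theorem numeric_choice {m b : ℕ} (hm : 1 ≤ m) (hb : 1 ≤ b) {β : ℝ} (hβ : β = 1 + (b : ℝ) / m) :
    ∃ C' : ℝ, ∀ᶠ N : ℕ in atTop, ∃ q : ℕ, 3 ≤ q ∧ q ≤ N ∧
      (2 * Real.log N - 10 * Real.log (Real.log N) - C') / Real.log β ≤ q + 1 ∧
      (β ^ q * (q * (64 * β ^ 2 * (b * (m + b)) * q ^ 2 * (4 * q * Real.log N))) ^ 2 ≤
        (N : ℝ) ^ 2) ∧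
      (N : ℝ) ^ 2 * (64 * β ^ 2 * (b * (m + b)) * q ^ 2 * (4 * q * Real.log N)) ^ q ≤
        N.choose q * β⁻¹ ^ (q.choose 2) := by
  have hm0 : (0 : ℝ) < m := by exact_mod_cast hm
  have hb0 : (0 : ℝ) < b := by exact_mod_cast hb
  have hβ1 : 1 < β := by
    rw [hβ]
    have : 0 < (b : ℝ) / m := div_pos hb0 hm0
    linarith
  have hβ0 : 0 < β := by linarith
  set l := Real.log β with hl
  have hl0 : 0 < l := Real.log_pos hβ1
  set c0 : ℝ := 256 * β ^ 2 * (b * (m + b)) with hc0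
  have hc0p : 0 < c0 := by positivity
  set L0 := Real.log (32 * c0 / l ^ 4) with hL0
  refine ⟨2 * L0 + 4 * l, ?_⟩
  set C' := 2 * L0 + 4 * l with hC'
  have hx : Tendsto (fun N : ℕ => Real.log N) atTop atTop :=
    Real.tendsto_log_atTop.comp tendsto_natCast_atTop_atTop
  have hlo : ∀ c : ℝ, 0 < c → ∀ᶠ x : ℝ in atTop, Real.log x ≤ c * x := by
    intro c hc
    filter_upwards [Real.isLittleO_log_id_atTop.bound hc, eventually_ge_atTop (0 : ℝ)] with x h1 h2
    rw [id, Real.norm_eq_abs, Real.norm_eq_abs, abs_of_nonneg h2] at h1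
    exact (le_abs_self _).trans h1
  have e1 := hx.eventually (hlo (1 / 20) (by norm_num))
  have e2 := hx.eventually (eventually_ge_atTop (2 * (C' + l)))
  have e3 := hx.eventually (eventually_ge_atTop (3 * l))
  have e4 := hx.eventually (eventually_ge_atTop (1 : ℝ))
  have e5 := (hx.eventually (Real.tendsto_log_atTop.eventually (eventually_ge_atTop (-C' / 10))))
  have e6 : ∀ᶠ N : ℕ in atTop, Real.log N ≤ l / 4 * N :=
    tendsto_natCast_atTop_atTop.eventually (hlo (l / 4) (by positivity))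
  filter_upwards [e1, e2, e3, e4, e5, e6, eventually_ge_atTop 3] with N h1 h2 h3 h4 h5 h6 hN3
  set x := Real.log N with hxdef
  have hN0 : (0 : ℝ) < N := by exact_mod_cast (by omega : 0 < N)
  set y := (2 * x - 10 * Real.log x - C') / l with hy
  set q := ⌊y⌋₊ with hq
  have hyl : y * l = 2 * x - 10 * Real.log x - C' := by
    rw [hy]
    field_simp
  have hy0 : x / l + 1 ≤ y := by
    rw [hy, le_div_iff₀ hl0]
    have : (x / l + 1) * l = x + l := by field_simp
    rw [this]
    linarith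
  have hxl0 : 0 ≤ x / l := by positivity
  have hy00 : 0 ≤ y := by linarith
  have hqy : (q : ℝ) ≤ y := Nat.floor_le hy00
  have hqy' : y < q + 1 := Nat.lt_floor_add_one y
  have hqx : x / l ≤ q := by linarith
  have hqx' : x ≤ q * l := by
    rwa [div_le_iff₀ hl0] at hqx
  have hq3 : 3 ≤ q := by
    have : (3 : ℝ) ≤ q := by
      refine le_trans ?_ hqx
      rw [le_div_iff₀ hl0]
      exact h3
    exact_mod_cast this
  have hq0 : (0 : ℝ) < q := by
    have : (3 : ℝ) ≤ q := by exact_mod_cast hq3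
    linarith
  have hy2 : y ≤ 2 * x / l := by
    rw [hy]
    apply div_le_div_of_nonneg_right _ hl0.le
    linarith
  have hq2 : (q : ℝ) ≤ 2 * x / l := hqy.trans hy2
  have hx0 : 0 < x := by linarith
  have hqN2 : 2 * q ≤ N := by
    have : (2 : ℝ) * q ≤ N := by
      have h7 : 2 * x / l ≤ N / 2 := by
        rw [div_le_iff₀ hl0]
        nlinarith
      linarith
    exact_mod_cast this
  have hR : 64 * β ^ 2 * (b * (m + b)) * (q : ℝ) ^ 2 * (4 * q * x) = c0 * q ^ 3 * x := by
    rw [hc0]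
    ring
  have hqR : 2 * (q * (c0 * (q : ℝ) ^ 3 * x)) ≤ 32 * c0 / l ^ 4 * x ^ 5 := by
    have h7 : (q : ℝ) ^ 4 ≤ (2 * x / l) ^ 4 := by gcongr
    calc 2 * (q * (c0 * (q : ℝ) ^ 3 * x)) = 2 * c0 * x * (q : ℝ) ^ 4 := by ring
      _ ≤ 2 * c0 * x * (2 * x / l) ^ 4 := by gcongr
      _ = 32 * c0 / l ^ 4 * x ^ 5 := by
        field_simp
        ring
  have hRpos : 0 < c0 * (q : ℝ) ^ 3 * x := by positivity
  have hqRpos : 0 < q * (c0 * (q : ℝ) ^ 3 * x) := by positivity
  have hlog1 : Real.log (2 * (q * (c0 * (q : ℝ) ^ 3 * x))) ≤ L0 + 5 * Real.log x := by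
    refine le_trans (Real.log_le_log (by positivity) hqR) (le_of_eq ?_)
    rw [Real.log_mul (by positivity) (by positivity), Real.log_pow]
    norm_num [hL0]
  have hlog2 : Real.log (q * (c0 * (q : ℝ) ^ 3 * x)) ≤ L0 + 5 * Real.log x := by
    refine le_trans (Real.log_le_log hqRpos ?_) hlog1
    linarith
  have hqyl : q * l ≤ 2 * x - 10 * Real.log x - C' := by
    rw [← hyl]
    exact mul_le_mul_of_nonneg_right hqy hl0.le
  refine ⟨q, hq3, by omega, hqy'.le, ?_, ?_⟩
  · -- first condition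
    rw [hR, ← Real.log_le_log_iff (by positivity) (by positivity),
      Real.log_mul (by positivity) (by positivity), Real.log_pow, Real.log_pow, Real.log_pow,
      ← hl, ← hxdef]
    push_cast
    linarith
  · -- second condition
    rw [hR]
    have h7 := choose_lower (N := N) (q := q) (by omega) hqN2
    have hch : ((q.choose 2 : ℕ) : ℝ) = q * (q - 1) / 2 := by
      rw [Nat.cast_choose_two]
    have hβi : 0 < β⁻¹ ^ (q.choose 2) := by positivity
    refine le_trans ?_ (mul_le_mul_of_nonneg_right h7 hβi.le)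
    rw [← Real.log_le_log_iff (by positivity) (by positivity),
      Real.log_mul (by positivity) (by positivity), Real.log_mul (by positivity) (by positivity),
      Real.log_pow, Real.log_pow, Real.log_pow, Real.log_pow,
      Real.log_div (by positivity) (by positivity), Real.log_inv, ← hl, ← hxdef, hch]
    have h8 : Real.log (2 * (q * (c0 * (q : ℝ) ^ 3 * x))) =
        Real.log (2 * q) + Real.log (c0 * (q : ℝ) ^ 3 * x) := by
      rw [← mul_assoc, Real.log_mul (by positivity) (by positivity)]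
    rw [h8] at hlog1
    have h9 : 2 * l ≤ x - (q - 1) * l / 2 - Real.log (2 * q) - Real.log (c0 * (q : ℝ) ^ 3 * x) := by
      linarith
    have h10 : (q : ℝ) * (2 * l) ≤ q * (x - (q - 1) * l / 2 - Real.log (2 * q) -
        Real.log (c0 * (q : ℝ) ^ 3 * x)) := mul_le_mul_of_nonneg_left h9 hq0.le
    push_cast
    linarith

/-- The random graph bound for every bias: `f_N(m,b) ≥ 2 log_β N - 10 log_β log N - C` with
`β = 1 + b/m`. -/
theorem value_lower_random {m b : ℕ} (hm : 1 ≤ m) (hb : 1 ≤ b) :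
    ∃ C : ℝ, ∀ᶠ N : ℕ in atTop,
      2 * Real.logb (1 + (b : ℝ) / m) N - 10 * Real.logb (1 + (b : ℝ) / m) (Real.log N) - C ≤
        value N m b := by
  classical
  obtain ⟨C', hC'⟩ := numeric_choice hm hb (β := 1 + (b : ℝ) / m) rfl
  refine ⟨C' / Real.log (1 + (b : ℝ) / m) + 1, ?_⟩
  filter_upwards [hC'] with N hN
  obtain ⟨q, hq3, hqN, hq, h1, h2⟩ := hN
  have hw : MakerWins N m b q := makerWins_of_numeric hm hb hq3 hqN rfl rfl rfl rfl h1 h2
  have hv : q ≤ value N m b := by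
    unfold value
    exact Nat.le_findGreatest hqN hw
  have hv' : (q : ℝ) ≤ value N m b := by exact_mod_cast hv
  have h3 : (2 * Real.log N - 10 * Real.log (Real.log N) - C') / Real.log (1 + (b : ℝ) / m) =
      2 * Real.logb (1 + (b : ℝ) / m) N - 10 * Real.logb (1 + (b : ℝ) / m) (Real.log N) -
        C' / Real.log (1 + (b : ℝ) / m) := by
    unfold Real.logb
    ring
  rw [h3] at hq
  linarith

end Pool.Agent.Helper78.CG
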