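import Pool.Agent.Helper78.CG.Game
import Pool.Agent.Helper78.CG.InitTT
import Pool.Agent.Helper78.CG.MkPar

set_option autoImplicit false

namespace Pool.Agent.Helper78.CG

open Finset Pool.Agent.Helper25.CliqueGame

private theorem one_le_log_three : (1 : ℝ) ≤ Real.log 3 := by
  rw [Real.le_log_iff_exp_le (by norm_num)]
  exact Real.exp_one_lt_d9.le.trans (by norm_num)

private theorem four_le {N q : ℕ} (hN : 3 ≤ N) (hq : 3 ≤ q) : 4 ≤ 4 * (q : ℝ) * Real.log N := by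
  have h1 : (1 : ℝ) ≤ Real.log N := one_le_log_three.trans
    (Real.log_le_log (by norm_num) (by exact_mod_cast hN))
  have h2 : (3 : ℝ) ≤ q := by exact_mod_cast hq
  nlinarith

/-- The penalty at the start.
Proof: `SS = ∑_W lam exp (th tt) ≤ |WW| (4 cap 2 / Λ) e^(-Λ) e^(Λ/2) ≤ N^q 4 C / Λ * N^(-2q) ≤ C`
(`tt_init`, `cap_init`, `card_WW`, `th * tt ≤ Λ / 2`, `e^(-Λ/2) = N^(-2q)`, `Λ ≥ 4`, the caps are
decreasing). -/
theorem SS_init {N q : ℕ} (hN : 3 ≤ N) (hq : 3 ≤ q) (hqN : q ≤ N) {β R Λ T : ℝ} (hβ : 1 ≤ β)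
    (hR : 1 ≤ R) (hΛ : Λ = 4 * q * Real.log N)
    (hT : T = N.choose q * β⁻¹ ^ (q.choose 2))
    (h1 : β ^ q * (q * R) ^ 2 ≤ (N : ℝ) ^ 2) :
    SS (mkPar q β R Λ (2 * β * T * q ^ 2 / N ^ 2)) ∅ (powersetCard q (univ : Finset (Fin N))) ≤
      2 * β * T * q ^ 2 / N ^ 2 := by
  have hβ0 : 0 < β := by linarith
  have hR0 : 0 < R := by linarith
  have hN0 : (0 : ℝ) < N := by exact_mod_cast (by omega : 0 < N)
  have hN1 : (1 : ℝ) ≤ N := by exact_mod_cast (by omega : 1 ≤ N)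
  have hq0 : (0 : ℝ) < q := by exact_mod_cast (by omega : 0 < q)
  have hT0 : 0 < T := by
    rw [hT]
    have : (0 : ℝ) < N.choose q := by exact_mod_cast Nat.choose_pos hqN
    positivity
  have hΛ4 : 4 ≤ Λ := by
    rw [hΛ]
    exact four_le hN hq
  have hΛ0 : 0 < Λ := by linarith
  set c : ℝ := 2 * β * T * q ^ 2 / N ^ 2 with hc
  have hc0 : 0 < c := by positivity
  have hterm : ∀ W ∈ WW N (mkPar q β R Λ c), (mkPar q β R Λ c).lam W.card *
      Real.exp ((mkPar q β R Λ c).th W.card *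
        tt (mkPar q β R Λ c).β ∅ (powersetCard q (univ : Finset (Fin N))) W ∅) ≤
        c * Real.exp (-(Λ / 2)) := by
    intro W hW
    obtain ⟨hW2, hWq⟩ : 2 ≤ W.card ∧ W.card < q := (mem_filter.mp hW).2
    change 4 * (c * R ^ 2 / R ^ W.card) / Λ * Real.exp (-Λ) *
      Real.exp (Λ / (c * R ^ 2 / R ^ W.card) *
        tt β ∅ (powersetCard q (univ : Finset (Fin N))) W ∅) ≤ _
    have h2 := tt_init (N := N) hβ0 hqN (by omega) (W := W) hWq.le
    rw [← hT] at h2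
    have h3 := cap_init (N := N) (by omega) hW2 hWq hβ hR hT0 h1
    have hcap : 0 < c * R ^ 2 / R ^ W.card := by positivity
    have h4 : Λ / (c * R ^ 2 / R ^ W.card) *
        tt β ∅ (powersetCard q (univ : Finset (Fin N))) W ∅ ≤ Λ / 2 := by
      calc Λ / (c * R ^ 2 / R ^ W.card) *
            tt β ∅ (powersetCard q (univ : Finset (Fin N))) W ∅ ≤
            Λ / (c * R ^ 2 / R ^ W.card) * (c * R ^ 2 / R ^ W.card / 2) :=
            mul_le_mul_of_nonneg_left (h2.trans h3) (by positivity)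
        _ = Λ / 2 := by field_simp
    have h5 : c * R ^ 2 / R ^ W.card ≤ c := by
      rw [div_le_iff₀ (by positivity)]
      exact mul_le_mul_of_nonneg_left (pow_le_pow_right₀ hR hW2) hc0.le
    have h6 : 4 * (c * R ^ 2 / R ^ W.card) / Λ ≤ c := by
      rw [div_le_iff₀ hΛ0]
      nlinarith
    calc 4 * (c * R ^ 2 / R ^ W.card) / Λ * Real.exp (-Λ) *
          Real.exp (Λ / (c * R ^ 2 / R ^ W.card) *
            tt β ∅ (powersetCard q (univ : Finset (Fin N))) W ∅) ≤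
          c * Real.exp (-Λ) * Real.exp (Λ / 2) := by
          refine mul_le_mul ?_ (Real.exp_le_exp.mpr h4) (Real.exp_pos _).le (by positivity)
          exact mul_le_mul_of_nonneg_right h6 (Real.exp_pos _).le
      _ = c * Real.exp (-(Λ / 2)) := by
          rw [mul_assoc, ← Real.exp_add]
          congr 2
          ring
  have hexp : Real.exp (-(Λ / 2)) * (N : ℝ) ^ q ≤ 1 := by
    have h7 : Real.exp (-(Λ / 2)) = ((N : ℝ) ^ (2 * q))⁻¹ := by
      rw [Real.exp_neg]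
      congr 1
      rw [hΛ, show 4 * (q : ℝ) * Real.log N / 2 = ((2 * q : ℕ) : ℝ) * Real.log N by
        push_cast; ring, Real.exp_nat_mul, Real.exp_log hN0]
    rw [h7, inv_mul_le_iff₀ (by positivity), mul_one]
    exact pow_le_pow_right₀ hN1 (by omega)
  have hcard := card_WW (N := N) (by omega) (mkPar q β R Λ c)
  calc SS (mkPar q β R Λ c) ∅ (powersetCard q (univ : Finset (Fin N))) ≤
        ∑ W ∈ WW N (mkPar q β R Λ c), c * Real.exp (-(Λ / 2)) := sum_le_sum hterm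
    _ = (WW N (mkPar q β R Λ c)).card * (c * Real.exp (-(Λ / 2))) := by
        rw [sum_const, nsmul_eq_mul]
    _ ≤ (N : ℝ) ^ q * (c * Real.exp (-(Λ / 2))) :=
        mul_le_mul_of_nonneg_right hcard (by positivity)
    _ = c * (Real.exp (-(Λ / 2)) * (N : ℝ) ^ q) := by ring
    _ ≤ c * 1 := mul_le_mul_of_nonneg_left hexp hc0.le
    _ = c := mul_one c

private theorem card_edges_le (N : ℕ) : ((edges N).card : ℝ) ≤ (N : ℝ) ^ 2 / 2 := by
  have h1 : (edges N).card = N.choose 2 := by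
    have h2 := Sym2.card_subtype_not_diag (α := Fin N)
    rw [Fintype.card_fin, Fintype.card_subtype] at h2
    rw [← h2]
    rfl
  rw [h1, Nat.cast_choose_two]
  have : (0 : ℝ) ≤ N := Nat.cast_nonneg _
  nlinarith

/-- The arithmetic of the losses.  Proof: with `c = 2 β T q² / N²`, `ν = β Λ / R`,
`kap = 4 ν c + 4 β c / R = 4 c β (Λ + 1) / R`, the loss per turn is
`b (m+b) kap + 8 b ν c ≤ 16 b (m+b) c β Λ / R` (`Λ ≥ 1`); the number of edges is `C(N,2) ≤ N²/2`, so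
the first term is at most `T / 4` by the choice of `R`; `b c ≤ T / 8` and `c ≤ T / 8` because
`16 b β q² ≤ R² q² ≤ N²`. -/
theorem loss_arith {N m b q : ℕ} (hN : 3 ≤ N) (hm : 1 ≤ m) (hb : 1 ≤ b) (hq : 3 ≤ q)
    {β R Λ T : ℝ} (hβ : 1 ≤ β) (hΛ : 4 ≤ Λ) (hT : 0 < T)
    (hR : R = 64 * β ^ 2 * (b * (m + b)) * q ^ 2 * Λ)
    (h1 : β ^ q * (q * R) ^ 2 ≤ (N : ℝ) ^ 2) :
    (edges N).card * lossT (mkPar q β R Λ (2 * β * T * q ^ 2 / N ^ 2)) m b +
      b * (mkPar q β R Λ (2 * β * T * q ^ 2 / N ^ 2)).cap 2 + 2 * β * T * q ^ 2 / N ^ 2 < T := by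
  have hβ0 : 0 < β := by linarith
  have hN0 : (0 : ℝ) < N := by exact_mod_cast (by omega : 0 < N)
  have hq0 : (0 : ℝ) < q := by exact_mod_cast (by omega : 0 < q)
  have hq1 : (1 : ℝ) ≤ q := by exact_mod_cast (by omega : 1 ≤ q)
  have hm1 : (1 : ℝ) ≤ m := by exact_mod_cast hm
  have hb1 : (1 : ℝ) ≤ b := by exact_mod_cast hb
  have hm0 : (0 : ℝ) < m := by linarith
  have hb0 : (0 : ℝ) < b := by linarith
  have hΛ0 : 0 < Λ := by linarith
  have hR0 : 0 < R := by
    rw [hR]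
    positivity
  set c : ℝ := 2 * β * T * q ^ 2 / N ^ 2 with hc
  have hc0 : 0 < c := by positivity
  have hcap2 : (mkPar q β R Λ c).cap 2 = c := by
    change c * R ^ 2 / R ^ 2 = c
    field_simp
  have hloss : lossT (mkPar q β R Λ c) m b =
      (b * (m + b) * (4 * β * c * (Λ + 1)) + 8 * b * β * Λ * c) / R := by
    change (b : ℝ) * (m + b) * (4 * (β * Λ / R) * (c * R ^ 2 / R ^ 2) + 4 * β * (c * R ^ 2 / R ^ 3)) +
      8 * b * (β * Λ / R) * (c * R ^ 2 / R ^ 2) = _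
    field_simp
  have h2 : (b * (m + b) * (4 * β * c * (Λ + 1)) + 8 * b * β * Λ * c) ≤
      16 * (b * (m + b)) * c * β * Λ := by
    have h3 : 0 < β * c := mul_pos hβ0 hc0
    have h4 : (b : ℝ) * (m + b) * (4 * (Λ + 1)) + 8 * b * Λ ≤ 16 * (b * (m + b)) * Λ := by
      have h5 : (b : ℝ) * 1 ≤ b * (m + b) := mul_le_mul_of_nonneg_left (by linarith) hb0.le
      have h6 : 0 < (b : ℝ) * (m + b) := by positivity
      nlinarith
    have h7 := mul_le_mul_of_nonneg_left h4 h3.le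
    nlinarith
  have h3 : lossT (mkPar q β R Λ c) m b ≤ T / (2 * N ^ 2) := by
    rw [hloss]
    calc (b * (m + b) * (4 * β * c * (Λ + 1)) + 8 * b * β * Λ * c) / R ≤
          16 * (b * (m + b)) * c * β * Λ / R := div_le_div_of_nonneg_right h2 hR0.le
      _ = T / (2 * N ^ 2) := by
          rw [hR, hc]
          have : (0 : ℝ) < m + b := by linarith
          field_simp
          ring
  have h4 : ((edges N).card : ℝ) * lossT (mkPar q β R Λ c) m b ≤ T / 4 := by
    have h5 : 0 ≤ T / (2 * (N : ℝ) ^ 2) := by positivity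
    calc ((edges N).card : ℝ) * lossT (mkPar q β R Λ c) m b ≤
          ((edges N).card : ℝ) * (T / (2 * N ^ 2)) :=
          mul_le_mul_of_nonneg_left h3 (Nat.cast_nonneg _)
      _ ≤ (N : ℝ) ^ 2 / 2 * (T / (2 * N ^ 2)) := mul_le_mul_of_nonneg_right (card_edges_le N) h5
      _ = T / 4 := by
          field_simp
          ring
  have h5 : 16 * (b : ℝ) * β * q ^ 2 ≤ (N : ℝ) ^ 2 := by
    have h6 : (1 : ℝ) ≤ β ^ q := one_le_pow₀ hβ
    have h7 : (q * R) ^ 2 ≤ (N : ℝ) ^ 2 := by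
      refine le_trans ?_ h1
      have : 0 ≤ (q * R) ^ 2 := sq_nonneg _
      nlinarith
    have h8 : 16 * (b : ℝ) * β ≤ R := by
      rw [hR]
      have e1 : (b : ℝ) * 1 ≤ b * (m + b) := mul_le_mul_of_nonneg_left (by linarith) hb0.le
      have e2 : β * 1 ≤ β ^ 2 := by nlinarith
      have e3 : (1 : ℝ) ≤ q ^ 2 := one_le_pow₀ hq1
      calc 16 * (b : ℝ) * β = 16 * (β * 1) * (b * 1) * 1 * 1 := by ring
        _ ≤ 64 * β ^ 2 * (b * (m + b)) * q ^ 2 * Λ := by
            refine mul_le_mul (mul_le_mul (mul_le_mul (by linarith) e1 (by positivity)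
              (by positivity)) e3 (by norm_num) (by positivity)) (by linarith) (by norm_num)
              (by positivity)
    have h9 : (1 : ℝ) ≤ R := by
      have : (1 : ℝ) ≤ 16 * b * β := by nlinarith
      linarith
    calc 16 * (b : ℝ) * β * q ^ 2 ≤ R * q ^ 2 := mul_le_mul_of_nonneg_right h8 (by positivity)
      _ ≤ R ^ 2 * q ^ 2 := mul_le_mul_of_nonneg_right (by nlinarith) (by positivity)
      _ = (q * R) ^ 2 := by ring
      _ ≤ (N : ℝ) ^ 2 := h7
  have h6 : b * c ≤ T / 8 := by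
    rw [hc, ← mul_div_assoc, div_le_iff₀ (by positivity)]
    have := mul_le_mul_of_nonneg_left h5 hT.le
    nlinarith
  have h7 : c ≤ b * c := le_mul_of_one_le_left hc0.le hb1
  rw [hcap2]
  linarith

/-- Maker wins under explicit numerical conditions.
Proof: `makerWins_of_LL` for `mkPar q β R Λ (2 β T q² / N²)`; `mkPar_good`, `tt_init_total`,
`SS_init`, `loss_arith`; `m ν = m / (64 β b (m+b) q²) ≤ 1/64`, so `2 exp (m ν) ≤ 4`. -/
theorem makerWins_of_numeric {N m b q : ℕ} (hm : 1 ≤ m) (hb : 1 ≤ b) (hq : 3 ≤ q) (hqN : q ≤ N)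
    {β R Λ T : ℝ} (hβ : β = 1 + (b : ℝ) / m) (hΛ : Λ = 4 * q * Real.log N)
    (hT : T = N.choose q * β⁻¹ ^ (q.choose 2))
    (hR : R = 64 * β ^ 2 * (b * (m + b)) * q ^ 2 * Λ)
    (h1 : β ^ q * (q * R) ^ 2 ≤ (N : ℝ) ^ 2)
    (h2 : (N : ℝ) ^ 2 * R ^ q ≤ T) : MakerWins N m b q := by
  have hN : 3 ≤ N := hq.trans hqN
  have hN0 : (0 : ℝ) < N := by exact_mod_cast (by omega : 0 < N)
  have hq0 : (0 : ℝ) < q := by exact_mod_cast (by omega : 0 < q)
  have hq1 : (1 : ℝ) ≤ q := by exact_mod_cast (by omega : 1 ≤ q)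
  have hm1 : (1 : ℝ) ≤ m := by exact_mod_cast hm
  have hb1 : (1 : ℝ) ≤ b := by exact_mod_cast hb
  have hm0 : (0 : ℝ) < m := by linarith
  have hb0 : (0 : ℝ) < b := by linarith
  have hβ1 : 1 ≤ β := by
    rw [hβ]
    have : 0 ≤ (b : ℝ) / m := by positivity
    linarith
  have hβ0 : 0 < β := by linarith
  have hΛ4 : 4 ≤ Λ := by
    rw [hΛ]
    exact four_le hN hq
  have hΛ0 : 0 < Λ := by linarith
  have hT0 : 0 < T := by
    rw [hT]
    have : (0 : ℝ) < N.choose q := by exact_mod_cast Nat.choose_pos hqN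
    positivity
  have hbm : (1 : ℝ) ≤ b * (m + b) := by nlinarith
  have hq2 : (1 : ℝ) ≤ q ^ 2 := one_le_pow₀ hq1
  have hβ2 : 1 ≤ β ^ 2 := one_le_pow₀ hβ1
  have hRβ : β * Λ ≤ R := by
    rw [hR]
    have e2 : β ≤ β ^ 2 := by nlinarith
    calc β * Λ = β * 1 * 1 * Λ := by ring
      _ ≤ (64 * β ^ 2) * (b * (m + b)) * q ^ 2 * Λ := by
          refine mul_le_mul_of_nonneg_right ?_ hΛ0.le
          exact mul_le_mul (mul_le_mul (by linarith) hbm (by norm_num) (by positivity)) hq2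
            (by norm_num) (by positivity)
  have hR1 : 1 ≤ R := by nlinarith
  have hR0 : 0 < R := by linarith
  have hc0 : 0 < 2 * β * T * q ^ 2 / (N : ℝ) ^ 2 := by positivity
  have hgood : (mkPar q β R Λ (2 * β * T * q ^ 2 / N ^ 2)).Good := by
    refine mkPar_good hβ1 hΛ0 hRβ hR1 hc0 ?_
    have h3 : 2 * β * T * q ^ 2 / (N : ℝ) ^ 2 * R ^ 2 / R ^ q =
        2 * β * q ^ 2 * R ^ 2 * (T / ((N : ℝ) ^ 2 * R ^ q)) := by
      field_simp
    rw [h3]
    have h4 : 1 ≤ T / ((N : ℝ) ^ 2 * R ^ q) := by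
      rw [one_le_div (by positivity)]
      exact h2
    have h5 : 1 ≤ 2 * β * q ^ 2 * R ^ 2 := by
      have e1 : (1 : ℝ) ≤ R ^ 2 := one_le_pow₀ hR1
      calc (1 : ℝ) = 1 * 1 * 1 := by norm_num
        _ ≤ (2 * β) * q ^ 2 * R ^ 2 :=
            mul_le_mul (mul_le_mul (by linarith) hq2 (by norm_num) (by positivity)) e1
              (by norm_num) (by positivity)
    calc (1 : ℝ) = 1 * 1 := by norm_num
      _ ≤ _ := mul_le_mul h5 h4 (by norm_num) (by positivity)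
  have hν : 2 * Real.exp (m * (mkPar q β R Λ (2 * β * T * q ^ 2 / N ^ 2)).ν) ≤ 4 := by
    have h3 : (m : ℝ) * (β * Λ / R) ≤ Real.log 2 := by
      have h4 : (m : ℝ) * (β * Λ / R) ≤ 1 / 64 := by
        rw [← mul_div_assoc, div_le_iff₀ hR0, hR]
        have e1 : (m : ℝ) * 1 * 1 ≤ (b * (m + b)) * β * q ^ 2 := by
          refine mul_le_mul (mul_le_mul ?_ hβ1 (by norm_num) (by positivity)) hq2 (by norm_num)
            (by positivity)
          nlinarith
        have e2 := mul_le_mul_of_nonneg_left e1 (mul_pos hβ0 hΛ0).le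
        nlinarith
      have := Real.log_two_gt_d9
      linarith
    have h5 := Real.exp_le_exp.mpr h3
    rw [Real.exp_log (by norm_num)] at h5
    change 2 * Real.exp (m * (β * Λ / R)) ≤ 4
    linarith
  refine makerWins_of_LL hgood hm hβ hν ?_
  have h3 := SS_init hN hq hqN hβ1 hR1 hΛ hT h1
  have h4 := loss_arith (N := N) hN hm hb hq hβ1 hΛ4 hT0 hR h1
  have h5 := tt_init_total (N := N) β q
  change _ < tt β ∅ (powersetCard q (univ : Finset (Fin N))) ∅ ∅ -
    SS (mkPar q β R Λ (2 * β * T * q ^ 2 / N ^ 2)) ∅ (powersetCard q (univ : Finset (Fin N)))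
  rw [h5, ← hT]
  linarith

end Pool.Agent.Helper78.CG
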