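import Pool.Agent.Helper78.CG.Basic

set_option autoImplicit false

namespace Pool.Agent.Helper78.CG

open Finset Pool.Agent.Helper25.CliqueGame

variable {N : ℕ}

/-- Exchange of the order of summation.
Proof: `cf W * tt W D = ∑_{A ∈ F, W ⊆ A, D ⊆ EI A} cf W * wt ∅ A * β^|EI W \ M|` (`wt_eq`); drop the
condition `p W` (all terms are nonnegative), exchange the sums
(`Finset.sum_comm'` or via indicator functions) to get
`∑_{A ∈ F, D ⊆ EI A} wt ∅ A * Om A ≤ c * tt ∅ D`. -/
theorem sum_cf_tt_le {P : Par} (hP : P.Good) {M : Finset (Sym2 (Fin N))}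
    {F : Finset (Finset (Fin N))} {c : ℝ} (hOm : ∀ A ∈ F, Om P M F A ≤ c)
    (D : Finset (Sym2 (Fin N))) (p : Finset (Fin N) → Prop) [DecidablePred p] :
    ∑ W ∈ (WW N P).filter p, cf P M F W * tt P.β M F W D ≤ c * tt P.β M F ∅ D := by
  have hβ := hP.β_pos
  have h1 : ∀ W, cf P M F W * tt P.β M F W D = ∑ A ∈ F.filter (fun A => D ⊆ EI A),
      wt P.β M ∅ A * (if W ⊆ A then cf P M F W * P.β ^ (EI W \ M).card else 0) := by
    intro W
    have h2 : tt P.β M F W D = ∑ A ∈ F.filter (fun A => D ⊆ EI A),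
        if W ⊆ A then wt P.β M W A else 0 := by
      unfold tt
      rw [← Finset.sum_filter, Finset.filter_filter]
      refine Finset.sum_congr ?_ fun _ _ => rfl
      ext A
      simp only [mem_filter]
      tauto
    rw [h2, Finset.mul_sum]
    refine Finset.sum_congr rfl fun A _ => ?_
    by_cases hWA : W ⊆ A
    · rw [if_pos hWA, if_pos hWA, wt_eq hβ M hWA]
      ring
    · rw [if_neg hWA, if_neg hWA, mul_zero, mul_zero]
  have h3 : ∑ W ∈ (WW N P).filter p, cf P M F W * tt P.β M F W D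
      ≤ ∑ W ∈ WW N P, cf P M F W * tt P.β M F W D :=
    Finset.sum_le_sum_of_subset_of_nonneg (Finset.filter_subset _ _)
      fun W _ _ => mul_nonneg (cf_nonneg hP M F W) (tt_nonneg hβ M F W D)
  refine h3.trans ?_
  rw [Finset.sum_congr rfl fun W _ => h1 W, Finset.sum_comm]
  have h4 : tt P.β M F ∅ D = ∑ A ∈ F.filter (fun A => D ⊆ EI A), wt P.β M ∅ A := by
    unfold tt
    refine Finset.sum_congr ?_ fun _ _ => rfl
    ext A
    simp only [mem_filter, Finset.empty_subset, true_and]
  rw [h4, Finset.mul_sum]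
  refine Finset.sum_le_sum fun A hA => ?_
  rw [← Finset.mul_sum, ← Finset.sum_filter, mul_comm]
  exact mul_le_mul_of_nonneg_right (hOm A (Finset.mem_filter.1 hA).1) (wt_pos hβ M ∅ A).le

end Pool.Agent.Helper78.CG
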